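import Mathlib

/-! Jensen's formula for a pair of entire functions: if the circle mean of `log |(A, B)|` is close
to the value at the centre then the direction of `(A, B)` is nearly constant near the centre. -/

set_option autoImplicit false

open Real Metric Set MeromorphicOn

namespace Run7.h964.FM

/-- Euclidean norm of a pair -/
noncomputable def en (p : ℂ × ℂ) : ℝ := √(‖p.1‖ ^ 2 + ‖p.2‖ ^ 2)

theorem en_sq (p : ℂ × ℂ) : en p ^ 2 = ‖p.1‖ ^ 2 + ‖p.2‖ ^ 2 :=
  Real.sq_sqrt (by positivity)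

theorem en_nonneg (p : ℂ × ℂ) : 0 ≤ en p := Real.sqrt_nonneg _

theorem en_pos {p : ℂ × ℂ} (h : p ≠ 0) : 0 < en p := by
  refine Real.sqrt_pos.2 ?_
  by_contra hc
  have h1 : ‖p.1‖ ^ 2 = 0 := by nlinarith [sq_nonneg ‖p.1‖, sq_nonneg ‖p.2‖]
  have h2 : ‖p.2‖ ^ 2 = 0 := by nlinarith [sq_nonneg ‖p.1‖, sq_nonneg ‖p.2‖]
  apply h
  ext
  · simpa using h1
  · simpa using h2

theorem en_eq_zero {p : ℂ × ℂ} : en p = 0 ↔ p = 0 := by
  constructor
  · intro h
    by_contra hc
    exact (en_pos hc).ne' h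
  · rintro rfl
    simp [en]

theorem en_continuous : Continuous en := by
  unfold en
  fun_prop

theorem en_smul (a : ℂ) (p : ℂ × ℂ) : en (a • p) = ‖a‖ * en p := by
  have h : (‖a‖ * en p) ^ 2 = en (a • p) ^ 2 := by
    rw [mul_pow, en_sq, en_sq]
    simp only [Prod.smul_fst, Prod.smul_snd, smul_eq_mul, norm_mul]
    ring
  exact ((pow_left_inj₀ (by have := en_nonneg p; positivity) (en_nonneg _) two_ne_zero).1 h).symm

/-- cross product -/
def cx (p q : ℂ × ℂ) : ℂ := p.1 * q.2 - p.2 * q.1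

/-- inner product -/
noncomputable def ip (p q : ℂ × ℂ) : ℂ := star p.1 * q.1 + star p.2 * q.2

theorem lagrange (p q : ℂ × ℂ) : ‖cx p q‖ ^ 2 + ‖ip p q‖ ^ 2 = en p ^ 2 * en q ^ 2 := by
  rw [en_sq, en_sq]
  have e : ∀ z : ℂ, ‖z‖ ^ 2 = z.re ^ 2 + z.im ^ 2 := fun z => by
    rw [← Complex.normSq_eq_norm_sq, Complex.normSq_apply]; ring
  rw [e, e, e, e, e, e]
  simp only [cx, ip, Complex.sub_re, Complex.sub_im, Complex.add_re, Complex.add_im, Complex.mul_re,
    Complex.mul_im, Complex.star_def, Complex.conj_re, Complex.conj_im]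
  ring

theorem cx_le (p q : ℂ × ℂ) : ‖cx p q‖ ≤ en p * en q := by
  refine le_of_sq_le_sq ?_ (mul_nonneg (en_nonneg p) (en_nonneg q))
  rw [mul_pow, ← lagrange]
  nlinarith [sq_nonneg ‖ip p q‖]

theorem ip_le (p q : ℂ × ℂ) : ‖ip p q‖ ≤ en p * en q := by
  refine le_of_sq_le_sq ?_ (mul_nonneg (en_nonneg p) (en_nonneg q))
  rw [mul_pow, ← lagrange]
  nlinarith [sq_nonneg ‖cx p q‖]

theorem ip_self (p : ℂ × ℂ) : ip p p = ((en p ^ 2 : ℝ) : ℂ) := by
  rw [en_sq]
  simp only [ip, Complex.star_def]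
  rw [← Complex.normSq_eq_conj_mul_self, ← Complex.normSq_eq_conj_mul_self,
    Complex.normSq_eq_norm_sq, Complex.normSq_eq_norm_sq]
  push_cast
  ring

theorem term_nonneg {f : ℂ → ℂ} (hf : Differentiable ℂ f) {R : ℝ} (hR : 0 < R) (u : ℂ) :
    0 ≤ (divisor f (closedBall 0 |R|) u : ℝ) * Real.log (R * ‖(0 : ℂ) - u‖⁻¹) := by
  have ha : AnalyticOnNhd ℂ f (closedBall 0 |R|) := fun z _ => hf.analyticAt z
  by_cases hu : u ∈ closedBall (0 : ℂ) |R|
  · have h1 : 0 ≤ divisor f (closedBall 0 |R|) u := (AnalyticOnNhd.divisor_nonneg ha) u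
    refine mul_nonneg (by exact_mod_cast h1) ?_
    by_cases hu0 : u = 0
    · simp [hu0]
    · refine Real.log_nonneg ?_
      rw [mem_closedBall, dist_zero_right, abs_of_pos hR] at hu
      rw [zero_sub, norm_neg, ← div_eq_mul_inv, one_le_div (norm_pos_iff.2 hu0)]
      exact hu
  · rw [Function.locallyFinsuppWithin.apply_eq_zero_of_notMem _ hu]
    simp

/-- Jensen's inequality -/
theorem jensen_ge {f : ℂ → ℂ} (hf : Differentiable ℂ f) {R : ℝ} (hR : 0 < R) (h0 : f 0 ≠ 0) :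
    Real.log ‖f 0‖ ≤ circleAverage (fun z => Real.log ‖f z‖) 0 R := by
  have ha : AnalyticOnNhd ℂ f (closedBall 0 |R|) := fun z _ => hf.analyticAt z
  rw [ha.circleAverage_log_norm hR.ne' h0]
  have : 0 ≤ ∑ᶠ u, (divisor f (closedBall 0 |R|) u : ℝ) * Real.log (R * ‖(0 : ℂ) - u‖⁻¹) :=
    finsum_nonneg fun u => term_nonneg hf hR u
  linarith

/-- Jensen's inequality with a zero -/
theorem jensen_zero {f : ℂ → ℂ} (hf : Differentiable ℂ f) {R : ℝ} (hR : 0 < R) (h0 : f 0 ≠ 0)
    {z : ℂ} (hz : f z = 0) (hzR : ‖z‖ ≤ R / 2) :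
    Real.log ‖f 0‖ + Real.log 2 ≤ circleAverage (fun z => Real.log ‖f z‖) 0 R := by
  have hz0 : z ≠ 0 := fun h => h0 (h ▸ hz)
  have hzp : 0 < ‖z‖ := norm_pos_iff.2 hz0
  have ha : AnalyticOnNhd ℂ f (closedBall 0 |R|) := fun z _ => hf.analyticAt z
  have hzm : z ∈ closedBall (0 : ℂ) |R| := by
    rw [mem_closedBall, dist_zero_right, abs_of_pos hR]; linarith
  rw [ha.circleAverage_log_norm hR.ne' h0]
  have hfin : (Function.support fun u : ℂ => (divisor f (closedBall 0 |R|) u : ℝ) *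
      Real.log (R * ‖(0 : ℂ) - u‖⁻¹)).Finite :=
    ((divisor f (closedBall 0 |R|)).finiteSupport (isCompact_closedBall ..)).subset
      fun _ _ => (by simp_all)
  have h1 := single_le_finsum z hfin (term_nonneg hf hR)
  have h2 : (1 : ℤ) ≤ divisor f (closedBall 0 |R|) z := by
    rw [ha.divisor_apply hzm]
    have hne : analyticOrderAt f z ≠ 0 := (analyticOrderAt_ne_zero).2 ⟨ha z hzm, hz⟩
    have hnt : analyticOrderAt f z ≠ ⊤ := by
      intro htop
      rw [analyticOrderAt_eq_top] at htop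
      have hall := (AnalyticOnNhd.eqOn_zero_of_preconnected_of_eventuallyEq_zero (f := f)
        (U := univ) (fun w _ => hf.analyticAt w) isPreconnected_univ (mem_univ z) htop)
      exact h0 (hall (mem_univ 0))
    obtain ⟨n, hn⟩ := ENat.ne_top_iff_exists.1 hnt
    rw [← hn] at hne ⊢
    have : n ≠ 0 := by
      rintro rfl
      exact hne rfl
    simp only [ENat.map_natCast, WithTop.untop₀_coe]
    omega
  have h3 : Real.log 2 ≤ Real.log (R * ‖(0 : ℂ) - z‖⁻¹) := by
    refine Real.log_le_log two_pos ?_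
    rw [zero_sub, norm_neg, ← div_eq_mul_inv, le_div_iff₀ hzp]
    linarith
  have h4 : Real.log 2 ≤ (divisor f (closedBall 0 |R|) z : ℝ) * Real.log (R * ‖(0 : ℂ) - z‖⁻¹) := by
    have h5 : (1 : ℝ) ≤ (divisor f (closedBall 0 |R|) z : ℝ) := by exact_mod_cast h2
    have h6 : 0 ≤ Real.log 2 := Real.log_nonneg one_le_two
    nlinarith
  linarith

theorem log_le_of_norm_le {w : ℂ} {x : ℝ} (h : ‖w‖ ≤ x) (hx : 1 ≤ x) :
    Real.log ‖w‖ ≤ Real.log x := by
  by_cases hw : w = 0
  · rw [hw, norm_zero, Real.log_zero]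
    exact Real.log_nonneg hx
  · exact Real.log_le_log (norm_pos_iff.2 hw) h

theorem circ_int_of_cont {u : ℂ → ℝ} (hu : Continuous u) (R : ℝ) : CircleIntegrable u 0 R :=
  hu.continuousOn.circleIntegrable'

/-- Jensen's inequality with a majorant -/
theorem jen_aux {f : ℂ → ℂ} (hf : Differentiable ℂ f) {R : ℝ} (hR : 0 < R) (h0 : f 0 ≠ 0)
    {u : ℂ → ℝ} (hu : Continuous u) (hup : ∀ z, 0 < u z) (hle : ∀ z, ‖f z‖ ≤ u z) {e : ℝ}
    (hJ : ∀ g : ℂ → ℂ, Differentiable ℂ g → g 0 ≠ 0 → (∀ z, g z = 0 ↔ f z = 0) →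
      Real.log ‖g 0‖ + e ≤ circleAverage (fun z => Real.log ‖g z‖) 0 R) :
    Real.log ‖f 0‖ + e ≤ circleAverage (fun z => Real.log (u z)) 0 R := by
  obtain ⟨m, hm, hm2⟩ : ∃ m : ℝ, 0 < m ∧ ∀ z ∈ sphere (0 : ℂ) |R|, m ≤ u z := by
    obtain ⟨z, -, hz⟩ := (isCompact_sphere (0 : ℂ) |R|).exists_isMinOn
      (NormedSpace.sphere_nonempty.2 (abs_nonneg R)) hu.continuousOn
    exact ⟨u z, hup z, fun w hw => hz hw⟩
  set K : ℝ := m⁻¹ with hK
  have hKp : 0 < K := inv_pos.2 hm
  have hKc : (K : ℂ) ≠ 0 := by exact_mod_cast hKp.ne'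
  have h1 := hJ (fun z => (K : ℂ) * f z) (hf.const_mul _) (mul_ne_zero hKc h0)
    (fun z => by simp [hKc])
  have hlu : Continuous fun z => Real.log (K * u z) :=
    (hu.const_mul K).log fun z => (mul_pos hKp (hup z)).ne'
  have h2 : circleAverage (fun z => Real.log ‖(K : ℂ) * f z‖) 0 R ≤
      circleAverage (fun z => Real.log (K * u z)) 0 R := by
    refine circleAverage_mono ?_ (circ_int_of_cont hlu R) fun z hz => ?_
    · exact MeromorphicOn.circleIntegrable_log_norm (f := fun z => (K : ℂ) * f z)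
        (fun w _ => ((hf.const_mul _).analyticAt w).meromorphicAt)
    · refine log_le_of_norm_le ?_ ?_
      · rw [norm_mul, Complex.norm_real, Real.norm_eq_abs, abs_of_pos hKp]
        exact mul_le_mul_of_nonneg_left (hle z) hKp.le
      · rw [hK, ← div_eq_inv_mul, one_le_div hm]
        exact hm2 z hz
  have h3 : circleAverage (fun z => Real.log (K * u z)) 0 R =
      Real.log K + circleAverage (fun z => Real.log (u z)) 0 R := by
    have e1 : (fun z => Real.log (K * u z)) = fun z => (fun _ => Real.log K) z +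
        (fun z => Real.log (u z)) z := by
      funext z
      exact Real.log_mul hKp.ne' (hup z).ne'
    rw [e1, circleAverage_fun_add (circ_int_of_cont continuous_const R)
      (circ_int_of_cont (hu.log fun z => (hup z).ne') R), circleAverage_const]
  have h4 : Real.log ‖(K : ℂ) * f 0‖ = Real.log K + Real.log ‖f 0‖ := by
    rw [norm_mul, Complex.norm_real, Real.norm_eq_abs, abs_of_pos hKp,
      Real.log_mul hKp.ne' (norm_pos_iff.2 h0).ne']
  rw [h4] at h1
  rw [h3] at h2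
  linarith

theorem jen1 {f : ℂ → ℂ} (hf : Differentiable ℂ f) {R : ℝ} (hR : 0 < R) (h0 : f 0 ≠ 0)
    {u : ℂ → ℝ} (hu : Continuous u) (hup : ∀ z, 0 < u z) (hle : ∀ z, ‖f z‖ ≤ u z) :
    Real.log ‖f 0‖ ≤ circleAverage (fun z => Real.log (u z)) 0 R := by
  have := jen_aux (e := 0) hf hR h0 hu hup hle fun g hg h0 _ => by
    rw [add_zero]; exact jensen_ge hg hR h0
  rwa [add_zero] at this

theorem jen2 {f : ℂ → ℂ} (hf : Differentiable ℂ f) {R : ℝ} (hR : 0 < R) (h0 : f 0 ≠ 0)
    {u : ℂ → ℝ} (hu : Continuous u) (hup : ∀ z, 0 < u z) (hle : ∀ z, ‖f z‖ ≤ u z)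
    {z : ℂ} (hz : f z = 0) (hzR : ‖z‖ ≤ R / 2) :
    Real.log ‖f 0‖ + Real.log 2 ≤ circleAverage (fun z => Real.log (u z)) 0 R :=
  jen_aux hf hR h0 hu hup hle fun _ hg h0 h => jensen_zero hg hR h0 ((h z).2 hz) hzR

/-- the gap in Jensen's inequality for a pair of functions -/
noncomputable def gap (F : ℂ → ℂ × ℂ) (R : ℝ) : ℝ :=
  circleAverage (fun z => Real.log (en (F z))) 0 R - Real.log (en (F 0))

/-- entire curves in the punctured plane `ℂ² ∖ 0` -/
structure Cur (F : ℂ → ℂ × ℂ) : Prop where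
  d1 : Differentiable ℂ fun z => (F z).1
  d2 : Differentiable ℂ fun z => (F z).2
  ne : ∀ z, F z ≠ 0

namespace Cur

variable {F : ℂ → ℂ × ℂ} (h : Cur F)
include h

theorem cont : Continuous F := h.d1.continuous.prodMk h.d2.continuous

theorem en_cont : Continuous fun z => en (F z) := en_continuous.comp h.cont

theorem en_pos (z : ℂ) : 0 < en (F z) := Run7.h964.FM.en_pos (h.ne z)

theorem log_cont : Continuous fun z => Real.log (en (F z)) :=
  h.en_cont.log fun z => (h.en_pos z).ne'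

theorem cx_diff (p : ℂ × ℂ) : Differentiable ℂ fun z => cx p (F z) :=
  (h.d2.const_mul p.1).sub (h.d1.const_mul p.2)

theorem ip_diff (p : ℂ × ℂ) : Differentiable ℂ fun z => ip p (F z) :=
  (h.d1.const_mul _).add (h.d2.const_mul _)

theorem avg_log {c : ℝ} (hc : 0 < c) (R : ℝ) :
    circleAverage (fun z => Real.log (c * en (F z))) 0 R =
      Real.log c + circleAverage (fun z => Real.log (en (F z))) 0 R := by
  have e1 : (fun z => Real.log (c * en (F z))) = fun z => (fun _ => Real.log c) z +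
      (fun z => Real.log (en (F z))) z := by
    funext z
    exact Real.log_mul hc.ne' (h.en_pos z).ne'
  rw [e1, circleAverage_fun_add (circ_int_of_cont continuous_const R)
    (circ_int_of_cont h.log_cont R), circleAverage_const]

theorem gap_nonneg {R : ℝ} (hR : 0 < R) : 0 ≤ gap F R := by
  have h0 : ip (F 0) (F 0) ≠ 0 := by
    rw [ip_self]
    exact_mod_cast (pow_pos (h.en_pos 0) 2).ne'
  have h1 := jen1 (h.ip_diff (F 0)) hR h0 (u := fun z => en (F 0) * en (F z))
    (h.en_cont.const_mul _) (fun z => mul_pos (h.en_pos 0) (h.en_pos z)) (fun z => ip_le _ _)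
  rw [h.avg_log (h.en_pos 0) R, ip_self, Complex.norm_real, Real.norm_eq_abs,
    abs_of_pos (pow_pos (h.en_pos 0) 2), Real.log_pow] at h1
  unfold gap
  push_cast at h1
  linarith

/-- the direction does not move much -/
theorem osc {R : ℝ} (hR : 0 < R) {z : ℂ} (hz : ‖z‖ ≤ R / 2) :
    ‖cx (F z) (F 0)‖ ≤ Real.exp (gap F R) / 2 * (en (F z) * en (F 0)) := by
  have hz1 := h.en_pos z
  have hz2 := h.en_pos 0
  by_cases h0 : cx (F z) (F 0) = 0
  · rw [h0, norm_zero]
    positivity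
  have hcc : cx (F z) (F z) = 0 := by unfold cx; ring
  have h1 := jen2 (h.cx_diff (F z)) hR h0 (u := fun w => en (F z) * en (F w))
    (h.en_cont.const_mul _) (fun w => mul_pos hz1 (h.en_pos w)) (fun w => cx_le _ _) hcc hz
  rw [h.avg_log hz1 R] at h1
  have h2 : Real.log (‖cx (F z) (F 0)‖ * 2) ≤
      Real.log (Real.exp (gap F R) * (en (F z) * en (F 0))) := by
    rw [Real.log_mul (norm_pos_iff.2 h0).ne' two_ne_zero, Real.log_mul (Real.exp_pos _).ne'
      (mul_pos hz1 hz2).ne', Real.log_exp, Real.log_mul hz1.ne' hz2.ne']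
    unfold gap
    linarith
  have h3 := (Real.log_le_log_iff (mul_pos (norm_pos_iff.2 h0) two_pos)
    (mul_pos (Real.exp_pos _) (mul_pos hz1 hz2))).1 h2
  linarith

/-- the direction is nearly constant if the gap is small -/
theorem small {R : ℝ} (hR : 0 < R) (hg : Real.exp (gap F R) / 2 ≤ 3 / 5) {w : ℂ}
    (hw : ‖w‖ ≤ R / 4) :
    ‖cx (F w) (F 0)‖ ^ 2 ≤ 25 / 4 * gap F (R / 2) * (en (F w) ^ 2 * en (F 0) ^ 2) := by
  have hR2 : 0 < R / 2 := by linarith
  set f : ℂ → ℂ := fun z => ip (F 0) (F z) with hf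
  set g : ℂ → ℂ := fun z => cx (F 0) (F z) with hgg
  have hfd : Differentiable ℂ f := h.ip_diff (F 0)
  have hgd : Differentiable ℂ g := h.cx_diff (F 0)
  -- bounds in the disc of radius R / 2
  have hb : ∀ z : ℂ, ‖z‖ ≤ R / 2 → ‖g z‖ ^ 2 ≤ 9 / 25 * (en (F 0) ^ 2 * en (F z) ^ 2) := by
    intro z hz
    have h1 := h.osc hR hz
    have h2 : ‖g z‖ = ‖cx (F z) (F 0)‖ := by
      have : g z = - cx (F z) (F 0) := by simp only [hgg, cx]; ring
      rw [this, norm_neg]
    have h3 : ‖g z‖ ≤ 3 / 5 * (en (F z) * en (F 0)) := by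
      rw [h2]
      exact h1.trans (mul_le_mul_of_nonneg_right hg (mul_nonneg (en_nonneg _) (en_nonneg _)))
    calc ‖g z‖ ^ 2 ≤ (3 / 5 * (en (F z) * en (F 0))) ^ 2 := pow_le_pow_left₀ (norm_nonneg _) h3 2
      _ = _ := by ring
  have hL : ∀ z, ‖g z‖ ^ 2 + ‖f z‖ ^ 2 = en (F 0) ^ 2 * en (F z) ^ 2 := fun z => lagrange _ _
  have hfb : ∀ z : ℂ, ‖z‖ ≤ R / 2 → 16 / 25 * (en (F 0) ^ 2 * en (F z) ^ 2) ≤ ‖f z‖ ^ 2 := by
    intro z hz
    have := hb z hz
    have := hL z
    linarith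
  have hE : ∀ z, 0 < en (F 0) ^ 2 * en (F z) ^ 2 := fun z =>
    mul_pos (pow_pos (h.en_pos 0) 2) (pow_pos (h.en_pos z) 2)
  have hfn : ∀ z : ℂ, ‖z‖ ≤ R / 2 → f z ≠ 0 := by
    intro z hz h0
    have h1 := hfb z hz
    rw [h0, norm_zero] at h1
    have := hE z
    norm_num at h1
    linarith
  -- the mean of |h|^2
  have hmean : ∀ z ∈ sphere (0 : ℂ) |R / 2|, 8 / 25 * ‖(g z / f z) ^ 2‖ ≤
      Real.log (en (F 0) * en (F z)) - Real.log ‖f z‖ := by
    intro z hz
    have hzn : ‖z‖ ≤ R / 2 := by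
      rw [mem_sphere, dist_zero_right, abs_of_pos hR2] at hz
      exact hz.le
    have hfz := norm_pos_iff.2 (hfn z hzn)
    set s : ℝ := ‖(g z / f z) ^ 2‖ with hs
    have hs1 : s * ‖f z‖ ^ 2 = ‖g z‖ ^ 2 := by
      rw [hs, norm_pow, norm_div, div_pow, div_mul_cancel₀ _ (pow_pos hfz 2).ne']
    have hs0 : 0 ≤ s := norm_nonneg _
    have hs2 : s ≤ 9 / 16 := by
      have h1 := hb z hzn
      have h2 := hfb z hzn
      rw [← hs1] at h1
      by_contra hc
      push Not at hc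
      have h3 : 0 < ‖f z‖ ^ 2 := pow_pos hfz 2
      nlinarith
    have h1 : 2 * (Real.log (en (F 0) * en (F z)) - Real.log ‖f z‖) = Real.log (1 + s) := by
      have e1 : (en (F 0) * en (F z)) ^ 2 = ‖f z‖ ^ 2 * (1 + s) := by
        rw [mul_pow, ← hL z, ← hs1]; ring
      have e2 : Real.log ((en (F 0) * en (F z)) ^ 2) = Real.log (‖f z‖ ^ 2 * (1 + s)) := by rw [e1]
      rw [Real.log_pow, Real.log_mul (pow_pos hfz 2).ne' (by positivity), Real.log_pow] at e2
      push_cast at e2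
      linarith
    have h2 : 1 - (1 + s)⁻¹ ≤ Real.log (1 + s) := Real.one_sub_inv_le_log_of_pos (by positivity)
    have h3 : 16 / 25 * s ≤ 1 - (1 + s)⁻¹ := by
      have : 1 - (1 + s)⁻¹ = s * (1 + s)⁻¹ := by field_simp; ring
      rw [this, mul_comm]
      refine mul_le_mul_of_nonneg_left ?_ hs0
      rw [le_inv_comm₀ (by norm_num) (by positivity)]
      norm_num
      linarith
    linarith
  have hhd : ∀ z : ℂ, ‖z‖ ≤ R / 2 → DifferentiableAt ℂ (fun z => (g z / f z) ^ 2) z := fun z hz =>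
    ((hgd z).div (hfd z) (hfn z hz)).pow 2
  have hhc : ContinuousOn (fun z => (g z / f z) ^ 2) (sphere (0 : ℂ) |R / 2|) := by
    intro z hz
    rw [mem_sphere, dist_zero_right, abs_of_pos hR2] at hz
    exact (hhd z hz.le).continuousAt.continuousWithinAt
  have hlogf : ContinuousOn (fun z => Real.log ‖f z‖) (sphere (0 : ℂ) |R / 2|) := by
    refine ContinuousOn.log hfd.continuous.norm.continuousOn fun z hz => ?_
    rw [mem_sphere, dist_zero_right, abs_of_pos hR2] at hz
    exact (norm_pos_iff.2 (hfn z hz.le)).ne'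
  have hci : ∀ {u : ℂ → ℝ}, ContinuousOn u (sphere (0 : ℂ) |R / 2|) → CircleIntegrable u 0 (R / 2) :=
    fun hu => hu.circleIntegrable'
  have hI1 : CircleIntegrable (fun z => ‖(g z / f z) ^ 2‖) 0 (R / 2) := hci hhc.norm
  have hlogE : Continuous fun z => Real.log (en (F 0) * en (F z)) :=
    (h.en_cont.const_mul _).log fun z => (mul_pos (h.en_pos 0) (h.en_pos z)).ne'
  have hA : circleAverage (fun z => ‖(g z / f z) ^ 2‖) 0 (R / 2) ≤ 25 / 8 * gap F (R / 2) := by
    have h1 : circleAverage (fun z => (8 / 25 : ℝ) • ‖(g z / f z) ^ 2‖) 0 (R / 2) ≤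
        circleAverage (fun z => Real.log (en (F 0) * en (F z)) - Real.log ‖f z‖) 0 (R / 2) := by
      refine circleAverage_mono ?_ (hci (hlogE.continuousOn.sub hlogf)) fun z hz => ?_
      · exact hci (continuousOn_const.mul hhc.norm)
      · rw [smul_eq_mul]
        exact hmean z hz
    rw [circleAverage_fun_smul, circleAverage_fun_sub (hci hlogE.continuousOn) (hci hlogf),
      h.avg_log (h.en_pos 0) (R / 2), smul_eq_mul] at h1
    have h2 : circleAverage (fun z => Real.log ‖f z‖) 0 (R / 2) = Real.log ‖f 0‖ := by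
      refine AnalyticOnNhd.circleAverage_log_norm_of_ne_zero (fun z _ => hfd.analyticAt z) ?_
      intro z hz
      rw [mem_closedBall, dist_zero_right, abs_of_pos hR2] at hz
      exact hfn z hz
    have h3 : Real.log ‖f 0‖ = 2 * Real.log (en (F 0)) := by
      rw [hf]
      simp only
      rw [ip_self, Complex.norm_real, Real.norm_eq_abs, abs_of_pos (pow_pos (h.en_pos 0) 2),
        Real.log_pow]
      push_cast
      ring
    rw [h2, h3] at h1
    unfold gap
    linarith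
  -- Cauchy's formula
  have hwb : w ∈ ball (0 : ℂ) |R / 2| := by
    rw [mem_ball, dist_zero_right, abs_of_pos hR2]
    linarith
  have hdc : DiffContOnCl ℂ (fun z => (g z / f z) ^ 2) (ball 0 |R / 2|) := by
    refine DifferentiableOn.diffContOnCl fun z hz => ?_
    have hz' := closure_ball_subset_closedBall hz
    rw [mem_closedBall, dist_zero_right, abs_of_pos hR2] at hz'
    exact (hhd z hz').differentiableWithinAt
  have hC := hdc.circleAverage_smul_div hwb
  have hN : ‖(g w / f w) ^ 2‖ ≤ 2 * circleAverage (fun z => ‖(g z / f z) ^ 2‖) 0 (R / 2) := by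
    rw [← hC]
    unfold circleAverage
    rw [norm_smul, Real.norm_eq_abs, abs_of_pos (by positivity : (0 : ℝ) < (2 * π)⁻¹), smul_eq_mul,
      mul_left_comm]
    refine mul_le_mul_of_nonneg_left ?_ (by positivity)
    rw [← intervalIntegral.integral_const_mul]
    refine (intervalIntegral.norm_integral_le_integral_norm (by positivity)).trans ?_
    have hcc : Continuous fun θ : ℝ => (g (circleMap 0 (R / 2) θ) / f (circleMap 0 (R / 2) θ)) ^ 2 :=
      hhc.comp_continuous (continuous_circleMap 0 (R / 2))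
        (fun θ => circleMap_mem_sphere' 0 (R / 2) θ)
    have hnm : ∀ θ : ℝ, ‖circleMap 0 (R / 2) θ‖ = R / 2 := fun θ => by
      rw [norm_circleMap_zero, abs_of_pos hR2]
    have hker : ∀ θ : ℝ, R / 4 ≤ ‖circleMap 0 (R / 2) θ - w‖ := fun θ => by
      have := norm_sub_norm_le (circleMap 0 (R / 2) θ) w
      rw [hnm] at this
      linarith
    have hkc : Continuous fun θ : ℝ =>
        (circleMap 0 (R / 2) θ - 0) / (circleMap 0 (R / 2) θ - w) := by
      refine ((continuous_circleMap 0 (R / 2)).sub continuous_const).div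
        ((continuous_circleMap 0 (R / 2)).sub continuous_const) fun θ h0 => ?_
      have := hker θ
      rw [h0, norm_zero] at this
      linarith
    refine intervalIntegral.integral_mono_on (by positivity) ?_ ?_ ?_
    · exact ((hkc.smul hcc).norm).intervalIntegrable _ _
    · exact (hcc.norm.const_mul 2).intervalIntegrable _ _
    · intro θ _
      rw [norm_smul]
      refine mul_le_mul_of_nonneg_right ?_ (norm_nonneg _)
      rw [sub_zero, norm_div, hnm, div_le_iff₀ (lt_of_lt_of_le (by linarith) (hker θ))]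
      linarith [hker θ]
  have hgw : ‖cx (F w) (F 0)‖ ^ 2 = ‖(g w / f w) ^ 2‖ * ‖f w‖ ^ 2 := by
    have h1 : g w = - cx (F w) (F 0) := by simp only [hgg, cx]; ring
    have h2 : 0 < ‖f w‖ := norm_pos_iff.2 (hfn w (by linarith))
    rw [norm_pow, norm_div, div_pow, div_mul_cancel₀ _ (pow_pos h2 2).ne', h1, norm_neg]
  rw [hgw]
  have hfle : ‖f w‖ ^ 2 ≤ en (F w) ^ 2 * en (F 0) ^ 2 := by
    have := hL w
    nlinarith [sq_nonneg ‖g w‖]
  have hgn := h.gap_nonneg hR2
  calc ‖(g w / f w) ^ 2‖ * ‖f w‖ ^ 2 ≤ (25 / 4 * gap F (R / 2)) * ‖f w‖ ^ 2 :=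
        mul_le_mul_of_nonneg_right (by linarith) (sq_nonneg _)
    _ ≤ _ := mul_le_mul_of_nonneg_left hfle (by positivity)

end Cur

end Run7.h964.FM
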