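import Mathlib
import Pool.Agent.H790R3.RB.TSP
import Pool.Agent.H790R3.RB.TPQ
import Pool.Agent.H790R3.RB.TINJL
import Pool.Agent.H790R3.RB.TWR
import Pool.Agent.R239.Fat.T1
import Pool.Agent.Run7.h964.FM.J

/-! A criterion for the hyperbolicity of `m ∘ F`, `m` a matrix: a small disc of the sphere, with
centre `b`, is mapped well inside itself and the critical values are mapped into the disc. -/

set_option autoImplicit false

open Topology Filter Metric Set
open Pool.Agent.H790R3.RB Pool.Agent.R239.Fat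
open Pool.Agent.H790R3.RB.SP (pr_zero pr_ne pr_hc sp_pr sp_cont pr_eq_iff continuousAt_pr)

namespace Run7.h964.FM

/-- the action of a matrix with rows `m.1`, `m.2` -/
def app (m : (ℂ × ℂ) × (ℂ × ℂ)) (w : ℂ × ℂ) : ℂ × ℂ :=
  (m.1.1 * w.1 + m.1.2 * w.2, m.2.1 * w.1 + m.2.2 * w.2)

/-- the orthogonal vector -/
noncomputable def bp (b : ℂ × ℂ) : ℂ × ℂ := (-star b.2, star b.1)

theorem en_bp (b : ℂ × ℂ) : en (bp b) = en b := by
  unfold en bp
  simp only [norm_neg, norm_star]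
  rw [add_comm]

theorem expand (b w : ℂ × ℂ) :
    ((en b ^ 2 : ℝ) : ℂ) • w = ip b w • b + ip (bp b) w • bp b := by
  rw [← ip_self]
  simp only [ip, bp]
  refine Prod.ext ?_ ?_
  · simp only [Prod.smul_fst, Prod.fst_add, smul_eq_mul, star_neg, star_star]
    ring
  · simp only [Prod.smul_snd, Prod.snd_add, smul_eq_mul, star_neg, star_star]
    ring

theorem hyp_of_disc {g : Sph → Sph} (H : Sph ≃ₜ Sph) {T : ℂ → ℂ} {ρ : ℝ}
    (hρ : 0 < ρ) (hT : ∀ z : ℂ, ‖z‖ ≤ ρ → DifferentiableAt ℂ T z)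
    (hT2 : ∀ z : ℂ, ‖z‖ ≤ ρ → ‖T z‖ ≤ ρ / 3)
    (hgT : ∀ z : ℂ, ‖z‖ ≤ ρ → g (H (z : Sph)) = H (T z : ℂ)) :
    ∃ z : Sph, g z = z ∧ (∃ U ∈ 𝓝 z, ∀ w ∈ U, Tendsto (fun k : ℕ => g^[k] w) atTop (𝓝 z)) ∧
      ∀ c : Sph, (∃ w : ℂ, ‖w‖ ≤ ρ ∧ g c = H (w : Sph)) →
        Tendsto (fun k : ℕ => g^[k] c) atTop (𝓝 z) := by
  have hρ3 : 0 < ρ / 3 := by linarith
  set S : Set ℂ := closedBall (0 : ℂ) (ρ / 3) with hS
  have hSm : ∀ z, z ∈ S ↔ ‖z‖ ≤ ρ / 3 := fun z => by rw [hS, mem_closedBall, dist_zero_right]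
  -- derivative bound
  have hder : ∀ z ∈ S, ‖deriv T z‖ ≤ 1 / 2 := by
    intro z hz
    rw [hSm] at hz
    have h1 : ∀ w ∈ closedBall z (2 * ρ / 3), ‖w‖ ≤ ρ := by
      intro w hw
      rw [mem_closedBall, dist_eq_norm] at hw
      have := norm_add_le (w - z) z
      rw [sub_add_cancel] at this
      linarith
    have h2 : DiffContOnCl ℂ T (ball z (2 * ρ / 3)) := by
      refine DifferentiableOn.diffContOnCl fun w hw => ?_
      exact (hT w (h1 w (closure_ball_subset_closedBall hw))).differentiableWithinAt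
    have h3 := Complex.norm_deriv_le_of_forall_mem_sphere_norm_le (by positivity : 0 < 2 * ρ / 3) h2
      (C := ρ / 3) (fun w hw => hT2 w (h1 w (sphere_subset_closedBall hw)))
    refine h3.trans (le_of_eq ?_)
    field_simp
  have hlip : ∀ x ∈ S, ∀ y ∈ S, ‖T x - T y‖ ≤ 1 / 2 * ‖x - y‖ := by
    intro x hx y hy
    refine Convex.norm_image_sub_le_of_norm_deriv_le (f := T) (s := S) (C := 1 / 2) ?_ hder
      (convex_closedBall _ _) hy hx
    intro z hz
    rw [hSm] at hz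
    exact hT z (by linarith)
  have hmaps : ∀ z ∈ S, T z ∈ S := fun z hz => by
    rw [hSm] at hz ⊢
    exact hT2 z (by linarith)
  let T' : S → S := fun z => ⟨T z, hmaps z z.2⟩
  have hcon : ContractingWith (1 / 2) T' := by
    refine ⟨by norm_num, LipschitzWith.of_dist_le_mul fun x y => ?_⟩
    rw [Subtype.dist_eq, Subtype.dist_eq, dist_eq_norm, dist_eq_norm]
    simpa using hlip x x.2 y y.2
  have : CompleteSpace S := (isClosed_closedBall.isComplete).completeSpace_coe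
  have : Nonempty S := ⟨⟨0, by rw [hSm, norm_zero]; exact hρ3.le⟩⟩
  set z₀ : S := ContractingWith.fixedPoint T' hcon with hz₀
  have hfix : T z₀ = z₀ := congrArg Subtype.val (ContractingWith.fixedPoint_isFixedPt hcon)
  have hz₀n : ‖(z₀ : ℂ)‖ ≤ ρ / 3 := (hSm _).1 z₀.2
  have hit : ∀ x : S, ∀ k : ℕ, g^[k] (H ((x : ℂ) : Sph)) = H (((T'^[k] x : S) : ℂ) : Sph) := by
    intro x k
    induction k with
    | zero => rfl
    | succ k ih =>
      rw [Function.iterate_succ_apply', ih, Function.iterate_succ_apply']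
      exact hgT _ (((hSm _).1 (T'^[k] x).2).trans (by linarith))
  have hconv : ∀ x : S, Tendsto (fun k : ℕ => g^[k] (H ((x : ℂ) : Sph))) atTop
      (𝓝 (H ((z₀ : ℂ) : Sph))) := by
    intro x
    simp only [hit]
    have h1 : Tendsto (fun k => T'^[k] x) atTop (𝓝 z₀) := hcon.tendsto_iterate_fixedPoint x
    have h2 : Tendsto (fun k => ((T'^[k] x : S) : ℂ)) atTop (𝓝 (z₀ : ℂ)) :=
      (continuous_subtype_val.tendsto _).comp h1
    exact (H.continuous.tendsto _).comp ((OnePoint.continuous_coe.tendsto _).comp h2)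
  have hconv2 : ∀ w : ℂ, ‖w‖ ≤ ρ → Tendsto (fun k : ℕ => g^[k] (H (w : Sph))) atTop
      (𝓝 (H ((z₀ : ℂ) : Sph))) := by
    intro w hw
    rw [← tendsto_add_atTop_iff_nat 1]
    have := hconv ⟨T w, (hSm _).2 (hT2 w hw)⟩
    refine this.congr fun k => ?_
    rw [Function.iterate_succ_apply, hgT w hw]
  refine ⟨H ((z₀ : ℂ) : Sph), ?_, ?_, ?_⟩
  · rw [hgT _ (hz₀n.trans (by linarith)), hfix]
  · refine ⟨H '' ((fun w : ℂ => (w : Sph)) '' ball 0 ρ), ?_, ?_⟩
    · refine (H.isOpenMap _ (OnePoint.isOpenEmbedding_coe.isOpenMap _ isOpen_ball)).mem_nhds ?_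
      refine mem_image_of_mem _ (mem_image_of_mem _ ?_)
      rw [mem_ball, dist_zero_right]
      linarith
    · rintro _ ⟨_, ⟨w, hw, rfl⟩, rfl⟩
      rw [mem_ball, dist_zero_right] at hw
      exact hconv2 w hw.le
  · rintro c ⟨w, hw, hgc⟩
    rw [← tendsto_add_atTop_iff_nat 1]
    refine (hconv2 w hw).congr fun k => ?_
    rw [Function.iterate_succ_apply, hgc]

/-- coefficients of `m ∘ F` -/
noncomputable def cm {d : ℕ} (m : (ℂ × ℂ) × (ℂ × ℂ)) (x : CV d) : CV d := fun r =>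
  if r.1 = 0 then m.1.1 * x (0, r.2) + m.1.2 * x (1, r.2)
  else m.2.1 * x (0, r.2) + m.2.2 * x (1, r.2)

/-- determinant -/
def dt (m : (ℂ × ℂ) × (ℂ × ℂ)) : ℂ := m.1.1 * m.2.2 - m.1.2 * m.2.1

theorem hF_cm {d : ℕ} (m : (ℂ × ℂ) × (ℂ × ℂ)) (x : CV d) (p : ℂ × ℂ) :
    hF (cm m x) p = app m (hF x p) := by
  unfold hF cm app
  refine Prod.ext ?_ ?_
  · simp only [if_true, Finset.mul_sum, ← Finset.sum_add_distrib]
    exact Finset.sum_congr rfl fun j _ => by ring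
  · simp only [one_ne_zero, if_false, Finset.mul_sum, ← Finset.sum_add_distrib]
    exact Finset.sum_congr rfl fun j _ => by ring

theorem wr_cm {d : ℕ} (m : (ℂ × ℂ) × (ℂ × ℂ)) (x : CV d) (p : ℂ × ℂ) :
    wr (cm m x) p = dt m * wr x p := by
  have h0 : ∀ w : Fin (d + 1) → ℂ, ∑ j, cm m x (0, j) * w j =
      m.1.1 * ∑ j, x (0, j) * w j + m.1.2 * ∑ j, x (1, j) * w j := by
    intro w
    unfold cm
    simp only [if_true, Finset.mul_sum, ← Finset.sum_add_distrib]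
    exact Finset.sum_congr rfl fun j _ => by ring
  have h1 : ∀ w : Fin (d + 1) → ℂ, ∑ j, cm m x (1, j) * w j =
      m.2.1 * ∑ j, x (0, j) * w j + m.2.2 * ∑ j, x (1, j) * w j := by
    intro w
    unfold cm
    simp only [one_ne_zero, if_false, Finset.mul_sum, ← Finset.sum_add_distrib]
    exact Finset.sum_congr rfl fun j _ => by ring
  unfold wr
  rw [h0, h0, h1, h1]
  unfold dt
  ring

theorem app_ne {m : (ℂ × ℂ) × (ℂ × ℂ)} (hm : dt m ≠ 0) {w : ℂ × ℂ} (hw : w ≠ 0) : app m w ≠ 0 := by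
  intro h
  have h1 : m.1.1 * w.1 + m.1.2 * w.2 = 0 := congrArg Prod.fst h
  have h2 : m.2.1 * w.1 + m.2.2 * w.2 = 0 := congrArg Prod.snd h
  apply hw
  refine Prod.ext ?_ ?_
  · have : dt m * w.1 = 0 := by unfold dt; linear_combination m.2.2 * h1 - m.1.2 * h2
    exact (mul_eq_zero.1 this).resolve_left hm
  · have : dt m * w.2 = 0 := by unfold dt; linear_combination m.1.1 * h2 - m.2.1 * h1
    exact (mul_eq_zero.1 this).resolve_left hm

theorem nd_cm {d : ℕ} {m : (ℂ × ℂ) × (ℂ × ℂ)} (hm : dt m ≠ 0) {x : CV d} (hx : ND x) :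
    ND (cm m x) := by
  intro p hp
  rw [hF_cm] at hp
  by_contra h0
  exact app_ne hm (fun h => h0 (hx p h)) hp

/-- the disc criterion for `m ∘ F` -/
theorem hypTop_cm {d : ℕ} (hd : 2 ≤ d) {x : CV d} (hx : ND x) {m : (ℂ × ℂ) × (ℂ × ℂ)}
    (hm : dt m ≠ 0) {b : ℂ × ℂ} (hb : b ≠ 0) {ρ : ℝ} (hρ : 0 < ρ)
    (h1 : ∀ z : ℂ, ‖z‖ ≤ ρ → ip b (app m (hF x (b + z • bp b))) ≠ 0 ∧
      ‖ip (bp b) (app m (hF x (b + z • bp b)))‖ ≤
        ρ / 3 * ‖ip b (app m (hF x (b + z • bp b)))‖)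
    (h2 : ∀ c : ℂ × ℂ, c ≠ 0 → wr x c = 0 → ip b (app m (hF x c)) ≠ 0 ∧
      ‖ip (bp b) (app m (hF x c))‖ ≤ ρ * ‖ip b (app m (hF x c))‖) :
    HypTop (sp (cm m x)) := by
  have hdet : (bp b).1 * b.2 - b.1 * (bp b).2 ≠ 0 := by
    have e : (bp b).1 * b.2 - b.1 * (bp b).2 = - ip b b := by
      simp only [bp, ip]; ring
    rw [e, ip_self, neg_ne_zero]
    exact_mod_cast (pow_pos (en_pos hb) 2).ne'
  set H : Sph ≃ₜ Sph := mobH (bp b).1 b.1 (bp b).2 b.2 hdet with hH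
  have hHp : ∀ p : ℂ × ℂ, p ≠ 0 → H (pr p) = pr (p.1 • bp b + p.2 • b) := by
    intro p hp
    have : H (pr p) = mob (bp b).1 b.1 (bp b).2 b.2 (pr p) := rfl
    rw [this, mob_pr hdet hp]
    congr 1
    refine Prod.ext ?_ ?_
    · simp only [Prod.fst_add, Prod.smul_fst, smul_eq_mul]; ring
    · simp only [Prod.snd_add, Prod.smul_snd, smul_eq_mul]; ring
  have hHz : ∀ z : ℂ, H (z : Sph) = pr (b + z • bp b) := by
    intro z
    rw [← pr_coe z, hHp _ (coe_ne z)]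
    congr 1
    rw [one_smul, add_comm]
  have hne : ∀ z : ℂ, b + z • bp b ≠ 0 := by
    intro z h0
    have := congrArg (ip b) h0
    have e1 : ip b (b + z • bp b) = ip b b := by
      simp only [ip, bp, Prod.fst_add, Prod.snd_add, Prod.smul_fst, Prod.smul_snd, smul_eq_mul,
        Complex.star_def]
      ring
    rw [e1, ip_self] at this
    have e2 : ip b (0 : ℂ × ℂ) = 0 := by simp [ip]
    rw [e2] at this
    have h3 : (en b ^ 2 : ℝ) = 0 := by exact_mod_cast this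
    exact (pow_pos (en_pos hb) 2).ne' h3
  have hpt : ∀ w : ℂ × ℂ, w ≠ 0 → ip b w ≠ 0 → pr w = H ((ip (bp b) w / ip b w : ℂ) : Sph) := by
    intro w hw hiw
    rw [hHz, pr_eq_iff hw (hne _)]
    have h3 := expand b w
    have hc : cr (((en b ^ 2 : ℝ) : ℂ) • w) (b + (ip (bp b) w / ip b w) • bp b) = 0 := by
      rw [h3]
      have : ip b w • b + ip (bp b) w • bp b = ip b w • (b + (ip (bp b) w / ip b w) • bp b) := by
        rw [smul_add, smul_smul, mul_div_cancel₀ _ hiw]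
      rw [this, cr_smul_left, cr_self, mul_zero]
    rw [cr_smul_left] at hc
    refine (mul_eq_zero.1 hc).resolve_left ?_
    exact_mod_cast (pow_pos (en_pos hb) 2).ne'
  have hnd := nd_cm hm hx
  have hFd : Differentiable ℂ (hF x) := by
    have := hF_iter_differentiable d 1
    simp only [Function.iterate_one] at this
    exact this.comp (differentiable_const x |>.prodMk differentiable_id)
  set A : ℂ → ℂ × ℂ := fun z => app m (hF x (b + z • bp b)) with hA
  have hAd : Differentiable ℂ A := by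
    have h3 : Differentiable ℂ fun z : ℂ => hF x (b + z • bp b) := hFd.comp (by fun_prop)
    simp only [hA, app]
    exact ((h3.fst.const_mul _).add (h3.snd.const_mul _)).prodMk
      ((h3.fst.const_mul _).add (h3.snd.const_mul _))
  have hipd : ∀ p : ℂ × ℂ, Differentiable ℂ fun z => ip p (A z) := fun p =>
    (hAd.fst.const_mul _).add (hAd.snd.const_mul _)
  obtain ⟨z, hz1, hz2, hz3⟩ := hyp_of_disc (g := sp (cm m x)) H
    (T := fun z => ip (bp b) (A z) / ip b (A z)) hρ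
    (fun z hz => (hipd _ z).div (hipd _ z) (h1 z hz).1)
    (fun z hz => by
      rw [norm_div, div_le_iff₀ (norm_pos_iff.2 (h1 z hz).1)]
      exact (h1 z hz).2)
    (fun z hz => by
      rw [hHz, sp_pr hnd (hne z), hF_cm]
      exact hpt _ (app_ne hm fun h0 => hne z (hx _ h0)) (h1 z hz).1)
  intro c hcr
  refine ⟨z, 1, one_pos, by simpa using hz1, ?_, ?_⟩
  · obtain ⟨U, hU, hU2⟩ := hz2
    exact ⟨U, hU, fun w hw => by simpa only [one_mul] using hU2 w hw⟩
  · simp only [one_mul]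
    obtain ⟨hc1, hc2⟩ := pr_hc c
    have hw : wr (cm m x) (hc c) = 0 := by
      by_contra hw
      exact hcr (hc1 ▸ INJL SP WR d (cm m x) _ hd hnd hc2 hw)
    rw [wr_cm] at hw
    obtain ⟨h3, h4⟩ := h2 _ hc2 ((mul_eq_zero.1 hw).resolve_left hm)
    refine hz3 c ⟨ip (bp b) (app m (hF x (hc c))) / ip b (app m (hF x (hc c))), ?_, ?_⟩
    · rw [norm_div, div_le_iff₀ (norm_pos_iff.2 h3)]
      exact h4
    · rw [← hpt _ (app_ne hm fun h0 => hc2 (hx _ h0)) h3, ← hF_cm, ← sp_pr hnd hc2, hc1]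

end Run7.h964.FM
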