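import Mathlib
import Pool.Agent.Run7.h964.FM.D

/-! The matrices near the matrix `w ↦ (a ∧ w) b` of rank one. -/

set_option autoImplicit false

open Topology Filter Metric Set
open Pool.Agent.H790R3.RB Pool.Agent.R239.Fat

namespace Run7.h964.FM

theorem ip_bp (w e : ℂ × ℂ) : ip (bp w) e = cx w e := by
  simp only [ip, bp, cx, star_neg, star_star]
  ring

theorem cx_add (a u v : ℂ × ℂ) : cx a (u + v) = cx a u + cx a v := by
  simp only [cx, Prod.fst_add, Prod.snd_add]; ring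

theorem cx_smul (a u : ℂ × ℂ) (c : ℂ) : cx a (c • u) = c * cx a u := by
  simp only [cx, Prod.smul_fst, Prod.smul_snd, smul_eq_mul]; ring

theorem ip_add (a u v : ℂ × ℂ) : ip a (u + v) = ip a u + ip a v := by
  simp only [ip, Prod.fst_add, Prod.snd_add]; ring

theorem ip_smul (a u : ℂ × ℂ) (c : ℂ) : ip a (c • u) = c * ip a u := by
  simp only [ip, Prod.smul_fst, Prod.smul_snd, smul_eq_mul]; ring

/-- triangle inequality for the chordal distance -/
theorem tri (a w e : ℂ × ℂ) (hw : w ≠ 0) :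
    ‖cx a e‖ * en w ≤ ‖cx a w‖ * en e + ‖cx w e‖ * en a := by
  have h1 := congrArg (cx a) (expand w e)
  rw [cx_smul, cx_add, cx_smul, cx_smul, ip_bp] at h1
  have h2 : en w ^ 2 * ‖cx a e‖ ≤ ‖ip w e‖ * ‖cx a w‖ + ‖cx w e‖ * ‖cx a (bp w)‖ := by
    have := norm_add_le (ip w e * cx a w) (cx w e * cx a (bp w))
    rw [← h1, norm_mul, norm_mul, norm_mul, Complex.norm_real, Real.norm_eq_abs,
      abs_of_nonneg (sq_nonneg _)] at this
    exact this
  have h3 := ip_le w e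
  have h4 := cx_le a (bp w)
  rw [en_bp] at h4
  have hp := en_pos hw
  have h5 : en w * (‖cx a e‖ * en w) ≤ en w * (‖cx a w‖ * en e + ‖cx w e‖ * en a) := by
    calc en w * (‖cx a e‖ * en w) = en w ^ 2 * ‖cx a e‖ := by ring
      _ ≤ ‖ip w e‖ * ‖cx a w‖ + ‖cx w e‖ * ‖cx a (bp w)‖ := h2
      _ ≤ (en w * en e) * ‖cx a w‖ + ‖cx w e‖ * (en a * en w) := by gcongr
      _ = _ := by ring
  exact le_of_mul_le_mul_left h5 hp

/-- the matrix of `w ↦ (a ∧ w) b` -/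
def rk (a b : ℂ × ℂ) : (ℂ × ℂ) × (ℂ × ℂ) :=
  ((b.1 * -a.2, b.1 * a.1), (b.2 * -a.2, b.2 * a.1))

/-- `m` is near the matrix of rank one -/
def Near (ε : ℝ) (m m' : (ℂ × ℂ) × (ℂ × ℂ)) : Prop :=
  ‖m.1.1 - m'.1.1‖ ≤ ε ∧ ‖m.1.2 - m'.1.2‖ ≤ ε ∧ ‖m.2.1 - m'.2.1‖ ≤ ε ∧ ‖m.2.2 - m'.2.2‖ ≤ ε

theorem app_rk (a b w : ℂ × ℂ) : app (rk a b) w = cx a w • b := by
  refine Prod.ext ?_ ?_
  · simp only [app, rk, cx, Prod.smul_fst, smul_eq_mul]; ring
  · simp only [app, rk, cx, Prod.smul_snd, smul_eq_mul]; ring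

theorem app_sub (m m' : (ℂ × ℂ) × (ℂ × ℂ)) (w : ℂ × ℂ) :
    app m w = app m' w + app (m - m') w := by
  refine Prod.ext ?_ ?_
  · simp only [app, Prod.fst_add, Prod.fst_sub, Prod.snd_sub]; ring
  · simp only [app, Prod.snd_add, Prod.fst_sub, Prod.snd_sub]; ring

theorem en_app_le {m : (ℂ × ℂ) × (ℂ × ℂ)} {ε : ℝ} (hε : 0 ≤ ε) (h1 : ‖m.1.1‖ ≤ ε)
    (h2 : ‖m.1.2‖ ≤ ε) (h3 : ‖m.2.1‖ ≤ ε) (h4 : ‖m.2.2‖ ≤ ε) (w : ℂ × ℂ) :
    en (app m w) ≤ 2 * ε * en w := by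
  refine le_of_sq_le_sq ?_ (by have := en_nonneg w; positivity)
  rw [en_sq, mul_pow, en_sq w]
  have hb : ∀ u v : ℂ, ‖u‖ ≤ ε → ‖v‖ ≤ ε → ‖u * w.1 + v * w.2‖ ^ 2 ≤
      2 * ε ^ 2 * (‖w.1‖ ^ 2 + ‖w.2‖ ^ 2) := by
    intro u v hu hv
    have h5 : ‖u * w.1 + v * w.2‖ ≤ ε * (‖w.1‖ + ‖w.2‖) := by
      refine (norm_add_le _ _).trans ?_
      rw [norm_mul, norm_mul, mul_add]
      gcongr
    calc ‖u * w.1 + v * w.2‖ ^ 2 ≤ (ε * (‖w.1‖ + ‖w.2‖)) ^ 2 :=
          pow_le_pow_left₀ (norm_nonneg _) h5 2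
      _ = ε ^ 2 * (‖w.1‖ + ‖w.2‖) ^ 2 := by ring
      _ ≤ ε ^ 2 * (2 * (‖w.1‖ ^ 2 + ‖w.2‖ ^ 2)) := by
          refine mul_le_mul_of_nonneg_left ?_ (sq_nonneg _)
          nlinarith [sq_nonneg (‖w.1‖ - ‖w.2‖)]
      _ = _ := by ring
  have h5 := hb _ _ h1 h2
  have h6 := hb _ _ h3 h4
  simp only [app]
  linarith

theorem ip_orth (b : ℂ × ℂ) : ip (bp b) b = 0 := by
  rw [ip_bp]; unfold cx; ring

theorem near_est {s : ℝ} (hs : 0 < s) (hs1 : s ≤ 1) {a b w : ℂ × ℂ} (ha : a ≠ 0) (hb : b ≠ 0)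
    (hw : w ≠ 0) {m : (ℂ × ℂ) × (ℂ × ℂ)} (hm : Near (s ^ 2 * (en a * en b)) m (rk a b))
    (h : 4 * s * (en a * en w) ≤ ‖cx a w‖) :
    ip b (app m w) ≠ 0 ∧ ‖ip (bp b) (app m w)‖ ≤ s * ‖ip b (app m w)‖ := by
  have ha' := en_pos ha
  have hb' := en_pos hb
  have hw' := en_pos hw
  set r : ℂ × ℂ := app (m - rk a b) w with hr
  have hre : en r ≤ 2 * (s ^ 2 * (en a * en b)) * en w :=
    en_app_le (by positivity) hm.1 hm.2.1 hm.2.2.1 hm.2.2.2 w
  have h1 : app m w = cx a w • b + r := by rw [hr, app_sub m (rk a b), app_rk]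
  have h2 : ip b (app m w) = cx a w * ((en b ^ 2 : ℝ) : ℂ) + ip b r := by
    rw [h1, ip_add, ip_smul, ip_self]
  have h3 : ip (bp b) (app m w) = ip (bp b) r := by
    rw [h1, ip_add, ip_smul, ip_orth, mul_zero, zero_add]
  have h4 : ‖ip (bp b) r‖ ≤ 2 * s ^ 2 * (en a * en b ^ 2 * en w) := by
    refine (ip_le _ _).trans ?_
    rw [en_bp]
    calc en b * en r ≤ en b * (2 * (s ^ 2 * (en a * en b)) * en w) := by gcongr
      _ = _ := by ring
  have h5 : ‖ip b r‖ ≤ 2 * s ^ 2 * (en a * en b ^ 2 * en w) := by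
    refine (ip_le _ _).trans ?_
    calc en b * en r ≤ en b * (2 * (s ^ 2 * (en a * en b)) * en w) := by gcongr
      _ = _ := by ring
  have h6 : 4 * s * (en a * en b ^ 2 * en w) ≤ ‖cx a w * ((en b ^ 2 : ℝ) : ℂ)‖ := by
    rw [norm_mul, Complex.norm_real, Real.norm_eq_abs, abs_of_pos (pow_pos hb' 2)]
    calc 4 * s * (en a * en b ^ 2 * en w) = 4 * s * (en a * en w) * en b ^ 2 := by ring
      _ ≤ _ := by gcongr
  have h7 : ‖cx a w * ((en b ^ 2 : ℝ) : ℂ)‖ ≤ ‖ip b (app m w)‖ + ‖ip b r‖ := by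
    have : cx a w * ((en b ^ 2 : ℝ) : ℂ) = ip b (app m w) - ip b r := by rw [h2]; ring
    rw [this]
    exact norm_sub_le _ _
  set X : ℝ := en a * en b ^ 2 * en w with hX
  have hXp : 0 < X := by positivity
  have h8 : 2 * s * X ≤ ‖ip b (app m w)‖ := by
    have : 2 * s ^ 2 * X ≤ 2 * s * X := by
      refine mul_le_mul_of_nonneg_right ?_ hXp.le
      nlinarith
    linarith
  refine ⟨fun h0 => ?_, ?_⟩
  · rw [h0, norm_zero] at h8
    have : 0 < 2 * s * X := by positivity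
    linarith
  · rw [h3]
    calc ‖ip (bp b) r‖ ≤ 2 * s ^ 2 * X := h4
      _ = s * (2 * s * X) := by ring
      _ ≤ _ := by gcongr

/-- the curve through `b` -/
noncomputable def curv {d : ℕ} (x : CV d) (b : ℂ × ℂ) (z : ℂ) : ℂ × ℂ := hF x (b + z • bp b)

theorem add_bp_ne {b : ℂ × ℂ} (hb : b ≠ 0) (z : ℂ) : b + z • bp b ≠ 0 := by
  intro h0
  have := congrArg (ip b) h0
  have e1 : ip b (b + z • bp b) = ip b b := by
    simp only [ip, bp, Prod.fst_add, Prod.snd_add, Prod.smul_fst, Prod.smul_snd, smul_eq_mul,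
      Complex.star_def]
    ring
  rw [e1, ip_self] at this
  have e2 : ip b (0 : ℂ × ℂ) = 0 := by simp [ip]
  rw [e2] at this
  have h3 : (en b ^ 2 : ℝ) = 0 := by exact_mod_cast this
  exact (pow_pos (en_pos hb) 2).ne' h3

theorem cur_curv {d : ℕ} {x : CV d} (hx : ND x) {b : ℂ × ℂ} (hb : b ≠ 0) : Cur (curv x b) := by
  have hFd : Differentiable ℂ (hF x) := by
    have := hF_iter_differentiable d 1
    simp only [Function.iterate_one] at this
    exact this.comp (differentiable_const x |>.prodMk differentiable_id)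
  have h3 : Differentiable ℂ fun z : ℂ => hF x (b + z • bp b) := hFd.comp (by fun_prop)
  exact ⟨h3.fst, h3.snd, fun z h0 => add_bp_ne hb z (hx _ h0)⟩

/-- If the pair `(a, b)` is good then all invertible matrices near `w ↦ (a ∧ w) b` give hyperbolic
maps. -/
theorem good_hyp {d : ℕ} (hd : 2 ≤ d) {x : CV d} (hx : ND x) {s : ℝ} (hs : 0 < s) (hs1 : s ≤ 1)
    {a b : ℂ × ℂ} (ha : a ≠ 0) (hb : b ≠ 0)
    (h1 : gap (curv x b) (12 * s) ≤ Real.log (6 / 5))
    (h2 : (4 * s + 5 / 2 * √(gap (curv x b) (6 * s))) * (en a * en (hF x b)) ≤ ‖cx a (hF x b)‖)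
    (h3 : ∀ c : ℂ × ℂ, c ≠ 0 → wr x c = 0 → 4 * s * (en a * en (hF x c)) ≤ ‖cx a (hF x c)‖)
    {m : (ℂ × ℂ) × (ℂ × ℂ)} (hm0 : dt m ≠ 0) (hm : Near (s ^ 2 * (en a * en b)) m (rk a b)) :
    HypTop (sp (cm m x)) := by
  have hC := cur_curv hx hb
  have h0 : curv x b 0 = hF x b := by simp [curv]
  refine hypTop_cm hd hx hm0 hb (ρ := 3 * s) (by positivity) ?_ ?_
  · intro z hz
    have hw : curv x b z ≠ 0 := hC.ne z
    have e3 : 3 * s / 3 = s := by ring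
    rw [e3]
    refine near_est hs hs1 ha hb hw hm ?_
    have hsm := hC.small (R := 12 * s) (by positivity) (by
      have : Real.exp (gap (curv x b) (12 * s)) ≤ 6 / 5 := by
        rw [← Real.exp_log (by norm_num : (0 : ℝ) < 6 / 5)]
        exact Real.exp_le_exp.2 h1
      linarith) (w := z) (by linarith)
    have e4 : 12 * s / 2 = 6 * s := by ring
    rw [e4, h0] at hsm
    have hg : 0 ≤ gap (curv x b) (6 * s) := hC.gap_nonneg (by positivity)
    have hF0 : 0 < en (hF x b) := en_pos fun h => hb (hx _ h)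
    have hwp := en_pos hw
    have hap := en_pos ha
    have h4 : ‖cx (curv x b z) (hF x b)‖ ≤
        5 / 2 * √(gap (curv x b) (6 * s)) * (en (curv x b z) * en (hF x b)) := by
      refine le_of_sq_le_sq ?_ (by positivity)
      have : (5 / 2 * √(gap (curv x b) (6 * s)) * (en (curv x b z) * en (hF x b))) ^ 2 =
          25 / 4 * gap (curv x b) (6 * s) * (en (curv x b z) ^ 2 * en (hF x b) ^ 2) := by
        rw [mul_pow, mul_pow, Real.sq_sqrt hg]; ring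
      rw [this]
      exact hsm
    have h5 := tri a (curv x b z) (hF x b) hw
    have h6 : en (hF x b) * (4 * s * (en a * en (curv x b z))) ≤
        en (hF x b) * ‖cx a (curv x b z)‖ := by
      have h7 : (4 * s + 5 / 2 * √(gap (curv x b) (6 * s))) * (en a * en (hF x b)) *
          en (curv x b z) ≤ ‖cx a (hF x b)‖ * en (curv x b z) :=
        mul_le_mul_of_nonneg_right h2 hwp.le
      have h8 : ‖cx (curv x b z) (hF x b)‖ * en a ≤
          5 / 2 * √(gap (curv x b) (6 * s)) * (en (curv x b z) * en (hF x b)) * en a :=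
        mul_le_mul_of_nonneg_right h4 hap.le
      linarith
    exact le_of_mul_le_mul_left h6 hF0
  · intro c hc hwr
    have hw : hF x c ≠ 0 := fun h => hc (hx _ h)
    obtain ⟨h4, h5⟩ := near_est hs hs1 ha hb hw hm (h3 c hc hwr)
    refine ⟨h4, h5.trans ?_⟩
    exact mul_le_mul_of_nonneg_right (by linarith) (norm_nonneg _)

end Run7.h964.FM
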