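import Mathlib
import Pool.Agent.Run7.h964.FM.E

/-! Volumes in `ℂ²`: isometries, and the mean value of the gap over the unit ball. -/

set_option autoImplicit false

open Topology Filter Metric Set MeasureTheory
open Real (circleAverage circleAverage_def circleAverage_const circleAverage_fun_add
  circleAverage_congr_sphere circleAverage_mono_on_of_le_circle)
open Pool.Agent.H790R3.RB

namespace Run7.h964.FM

/-- unit ball of `ℂ²` -/
def Bl : Set (ℂ × ℂ) := {p | en p ≤ 1}

theorem norm_le_en (p : ℂ × ℂ) : ‖p‖ ≤ en p := by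
  rw [Prod.norm_def]
  refine max_le ?_ ?_
  · refine le_of_sq_le_sq ?_ (en_nonneg p)
    rw [en_sq]; nlinarith [sq_nonneg ‖p.2‖]
  · refine le_of_sq_le_sq ?_ (en_nonneg p)
    rw [en_sq]; nlinarith [sq_nonneg ‖p.1‖]

theorem isClosed_Bl : IsClosed Bl := isClosed_le en_continuous continuous_const

theorem meas_Bl : MeasurableSet Bl := isClosed_Bl.measurableSet

theorem isCompact_Bl : IsCompact Bl := by
  refine Metric.isCompact_of_isClosed_isBounded isClosed_Bl ?_
  refine (isBounded_closedBall (x := (0 : ℂ × ℂ)) (r := 1)).subset fun p hp => ?_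
  rw [mem_closedBall, dist_zero_right]
  exact (norm_le_en p).trans hp

theorem vol_Bl_lt : volume Bl < ⊤ := isCompact_Bl.measure_lt_top

theorem vol_Bl_pos : 0 < volume Bl := by
  refine lt_of_lt_of_le (measure_ball_pos volume (0 : ℂ × ℂ) (by norm_num : (0 : ℝ) < 1 / 2))
    (measure_mono fun p hp => ?_)
  rw [mem_ball, dist_zero_right, Prod.norm_def, max_lt_iff] at hp
  have h1 := norm_nonneg p.1
  have h2 := norm_nonneg p.2
  show en p ≤ 1
  refine le_of_sq_le_sq ?_ zero_le_one
  rw [en_sq]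
  nlinarith

theorem mp_isom (L : (ℂ × ℂ) →ₗ[ℝ] (ℂ × ℂ)) (h : ∀ p, en (L p) = en p) :
    MeasurePreserving L volume volume := by
  have hinj : Function.Injective L := by
    rw [injective_iff_map_eq_zero]
    intro p hp
    have := h p
    rw [hp] at this
    rw [← en_eq_zero, ← this]
    simp [en]
  have hdet : LinearMap.det L ≠ 0 := by
    have := (LinearEquiv.ofInjectiveEndo L hinj).isUnit_det'
    exact this.ne_zero
  refine ⟨(L.continuous_of_finiteDimensional).measurable, ?_⟩
  have hH : Measure.IsAddHaarMeasure (volume : Measure (ℂ × ℂ)) := by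
    rw [Measure.volume_eq_prod]
    infer_instance
  have h1 := Measure.map_linearMap_addHaar_eq_smul_addHaar (μ := (volume : Measure (ℂ × ℂ))) hdet
  have h2 : Measure.map L volume Bl = volume Bl := by
    rw [Measure.map_apply (L.continuous_of_finiteDimensional).measurable meas_Bl]
    congr 1
    ext p
    simp only [mem_preimage, Bl, mem_ofPred_eq, h]
  rw [h1]
  rw [h1, Measure.smul_apply, smul_eq_mul] at h2
  have h3 : ENNReal.ofReal |(LinearMap.det L)⁻¹| = 1 := by
    have h4 := ENNReal.mul_div_cancel_right (a := ENNReal.ofReal |(LinearMap.det L)⁻¹|)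
      vol_Bl_pos.ne' vol_Bl_lt.ne
    rw [h2, ENNReal.div_self vol_Bl_pos.ne' vol_Bl_lt.ne] at h4
    exact h4.symm
  rw [h3, one_smul]

/-- Lebesgue measure on the unit ball -/
noncomputable def mu : Measure (ℂ × ℂ) := volume.restrict Bl

instance : IsFiniteMeasure mu := ⟨by
  unfold mu
  rw [Measure.restrict_apply MeasurableSet.univ, univ_inter]
  exact vol_Bl_lt⟩

theorem mp_mu (L : (ℂ × ℂ) →ₗ[ℝ] (ℂ × ℂ)) (h : ∀ p, en (L p) = en p) :
    MeasurePreserving L mu mu := by
  have h1 := (mp_isom L h).restrict_preimage meas_Bl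
  have h2 : L ⁻¹' Bl = Bl := by
    ext p
    simp only [mem_preimage, Bl, mem_ofPred_eq, h]
  rw [h2] at h1
  exact h1

/-- coordinates adapted to a unit vector -/
noncomputable def Lco (e : ℂ × ℂ) : (ℂ × ℂ) →ₗ[ℝ] (ℂ × ℂ) where
  toFun a := (cx a e, ip e a)
  map_add' u v := by
    refine Prod.ext ?_ ?_
    · simp only [cx, Prod.fst_add, Prod.snd_add]; ring
    · simp only [ip, Prod.fst_add, Prod.snd_add]; ring
  map_smul' c u := by
    refine Prod.ext ?_ ?_
    · simp only [cx, Prod.smul_fst, Prod.smul_snd, Complex.real_smul, RingHom.id_apply]; ring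
    · simp only [ip, Prod.smul_fst, Prod.smul_snd, Complex.real_smul, RingHom.id_apply]; ring

theorem cx_comm (p q : ℂ × ℂ) : cx p q = - cx q p := by unfold cx; ring

theorem en_Lco {e : ℂ × ℂ} (he : en e = 1) (a : ℂ × ℂ) : en (Lco e a) = en a := by
  refine (pow_left_inj₀ (en_nonneg _) (en_nonneg _) two_ne_zero).1 ?_
  rw [en_sq]
  show ‖cx a e‖ ^ 2 + ‖ip e a‖ ^ 2 = _
  rw [cx_comm, norm_neg, lagrange, he]
  ring

theorem mu_strip {e : ℂ × ℂ} (he : e ≠ 0) {u : ℝ} (hu : 0 ≤ u) :
    mu {a | ‖cx a e‖ < u * (en a * en e)} ≤ ENNReal.ofReal (Real.pi ^ 2 * u ^ 2) := by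
  have hep := en_pos he
  set e' : ℂ × ℂ := (((en e)⁻¹ : ℝ) : ℂ) • e with he'
  have hen : en e' = 1 := by
    rw [he', en_smul, Complex.norm_real, Real.norm_eq_abs, abs_of_pos (inv_pos.2 hep),
      inv_mul_cancel₀ hep.ne']
  have hcx : ∀ a, ‖cx a e‖ = en e * ‖cx a e'‖ := by
    intro a
    rw [he', cx_smul, norm_mul, Complex.norm_real, Real.norm_eq_abs, abs_of_pos (inv_pos.2 hep)]
    field_simp
  have hsub : {a | ‖cx a e‖ < u * (en a * en e)} ∩ Bl ⊆
      Lco e' ⁻¹' (ball (0 : ℂ) u ×ˢ closedBall (0 : ℂ) 1) := by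
    rintro a ⟨h1, h2⟩
    have h2' : en a ≤ 1 := h2
    rw [mem_ofPred_eq, hcx] at h1
    rw [mem_preimage]
    show (cx a e', ip e' a) ∈ _
    rw [mem_prod, mem_ball, dist_zero_right, mem_closedBall, dist_zero_right]
    constructor
    · have h3 : en e * ‖cx a e'‖ < en e * u := by
        refine h1.trans_le ?_
        calc u * (en a * en e) = en e * (u * en a) := by ring
          _ ≤ en e * (u * 1) := by gcongr
          _ = _ := by ring
      exact lt_of_mul_lt_mul_left h3 hep.le
    · exact (ip_le _ _).trans (by rw [hen, one_mul]; exact h2')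
  have hmp := mp_isom (Lco e') (en_Lco hen)
  unfold mu
  rw [Measure.restrict_apply' meas_Bl]
  refine (measure_mono hsub).trans ?_
  rw [hmp.measure_preimage (measurableSet_ball.prod measurableSet_closedBall).nullMeasurableSet]
  have : (volume : Measure (ℂ × ℂ)) = (volume : Measure ℂ).prod volume := rfl
  rw [this, Measure.prod_prod, Complex.volume_ball, Complex.volume_closedBall, ENNReal.ofReal_one,
    one_pow, one_mul]
  have hpi : (NNReal.pi : ENNReal) = ENNReal.ofReal Real.pi := by
    rw [ENNReal.ofReal, ← NNReal.coe_real_pi, Real.toNNReal_coe]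
  rw [hpi, ← ENNReal.ofReal_pow hu, ← ENNReal.ofReal_mul (by positivity),
    ← ENNReal.ofReal_mul (by positivity)]
  refine ENNReal.ofReal_le_ofReal (le_of_eq (by ring))

/-- `log |F(p)| - d log |p|`, a function on the sphere -/
noncomputable def Lam {d : ℕ} (x : CV d) (p : ℂ × ℂ) : ℝ :=
  Real.log (en (hF x p)) - d * Real.log (en p)

theorem hF_cont {d : ℕ} (x : CV d) : Continuous (hF x) := by
  have := hF_iter_continuous d 1
  simp only [Function.iterate_one] at this
  exact this.comp (continuous_const.prodMk continuous_id)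

theorem Lam_meas {d : ℕ} (x : CV d) : Measurable (Lam x) := by
  unfold Lam
  exact (Real.measurable_log.comp (en_continuous.comp (hF_cont x)).measurable).sub
    ((Real.measurable_log.comp en_continuous.measurable).const_mul _)

theorem Lam_smul {d : ℕ} {x : CV d} (hx : ND x) {c : ℂ} (hc : c ≠ 0) (p : ℂ × ℂ) :
    Lam x (c • p) = Lam x p := by
  by_cases hp : p = 0
  · rw [hp, smul_zero]
  have h1 : 0 < ‖c‖ := norm_pos_iff.2 hc
  have h2 : 0 < en (hF x p) := en_pos fun h => hp (hx _ h)
  unfold Lam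
  rw [hF_smul, en_smul, en_smul, norm_pow, Real.log_mul (pow_pos h1 d).ne' h2.ne',
    Real.log_mul h1.ne' (en_pos hp).ne', Real.log_pow]
  ring

theorem Lam_bdd {d : ℕ} (hd : 1 ≤ d) {x : CV d} (hx : ND x) : ∃ K : ℝ, ∀ p, |Lam x p| ≤ K := by
  have hc : IsCompact {p : ℂ × ℂ | en p = 1} := by
    refine Metric.isCompact_of_isClosed_isBounded (isClosed_eq en_continuous continuous_const) ?_
    refine (isBounded_closedBall (x := (0 : ℂ × ℂ)) (r := 1)).subset fun p hp => ?_
    rw [mem_closedBall, dist_zero_right]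
    exact (norm_le_en p).trans (le_of_eq hp)
  have hcont : ContinuousOn (Lam x) {p : ℂ × ℂ | en p = 1} := by
    have hne : ∀ p ∈ {p : ℂ × ℂ | en p = 1}, p ≠ 0 := by
      rintro p hp rfl
      have : en (0 : ℂ × ℂ) = 0 := by simp [en]
      rw [mem_ofPred_eq, this] at hp
      exact zero_ne_one hp
    refine ContinuousOn.sub ?_ (continuousOn_const.mul ?_)
    · exact (en_continuous.comp (hF_cont x)).continuousOn.log fun p hp =>
        (en_pos fun h => hne p hp (hx _ h)).ne'
    · exact en_continuous.continuousOn.log fun p hp => (en_pos (hne p hp)).ne'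
  obtain ⟨K, hK⟩ := hc.exists_bound_of_continuousOn hcont
  refine ⟨max K 0, fun p => ?_⟩
  by_cases hp : p = 0
  · have h0 : hF x (0 : ℂ × ℂ) = 0 := by
      have := hF_smul x 0 (0 : ℂ × ℂ)
      rw [zero_smul, zero_pow (by omega), zero_smul] at this
      exact this
    have h1 : en (0 : ℂ × ℂ) = 0 := by simp [en]
    unfold Lam
    rw [hp, h0, h1, Real.log_zero, mul_zero, sub_zero, abs_zero]
    exact le_max_right _ _
  · have hpp := en_pos hp
    have h1 : Lam x ((((en p)⁻¹ : ℝ) : ℂ) • p) = Lam x p :=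
      Lam_smul hx (by exact_mod_cast (inv_pos.2 hpp).ne') p
    rw [← h1]
    refine (hK _ ?_).trans (le_max_left _ _)
    rw [mem_ofPred_eq, en_smul, Complex.norm_real, Real.norm_eq_abs, abs_of_pos (inv_pos.2 hpp),
      inv_mul_cancel₀ hpp.ne']

theorem en_add_bp (b : ℂ × ℂ) (z : ℂ) : en (b + z • bp b) = √(1 + ‖z‖ ^ 2) * en b := by
  refine (pow_left_inj₀ (en_nonneg _) (by have := en_nonneg b; positivity) two_ne_zero).1 ?_
  rw [mul_pow, Real.sq_sqrt (by positivity), en_sq, en_sq]
  have e : ∀ z : ℂ, ‖z‖ ^ 2 = z.re ^ 2 + z.im ^ 2 := fun z => by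
    rw [← Complex.normSq_eq_norm_sq, Complex.normSq_apply]; ring
  rw [e, e, e, e, e]
  simp only [bp, Prod.fst_add, Prod.snd_add, Prod.smul_fst, Prod.smul_snd, smul_eq_mul,
    Complex.add_re, Complex.add_im, Complex.mul_re, Complex.mul_im, Complex.star_def,
    Complex.conj_re, Complex.conj_im, Complex.neg_re, Complex.neg_im]
  ring

/-- `b ↦ (b + z b^⊥) / √(1 + |z|²)` -/
noncomputable def Lrot (z : ℂ) : (ℂ × ℂ) →ₗ[ℝ] (ℂ × ℂ) where
  toFun b := (((√(1 + ‖z‖ ^ 2))⁻¹ : ℝ) : ℂ) • (b + z • bp b)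
  map_add' u v := by
    rw [← smul_add]
    congr 1
    refine Prod.ext ?_ ?_
    · simp only [bp, Prod.fst_add, Prod.snd_add, Prod.smul_fst, smul_eq_mul, star_add]; ring
    · simp only [bp, Prod.fst_add, Prod.snd_add, Prod.smul_snd, smul_eq_mul, star_add]; ring
  map_smul' c u := by
    refine Prod.ext ?_ ?_
    · simp only [bp, Prod.fst_add, Prod.smul_fst, Prod.smul_snd, smul_eq_mul, Complex.real_smul,
        RingHom.id_apply, star_mul', Complex.star_def, Complex.conj_ofReal]; ring
    · simp only [bp, Prod.snd_add, Prod.smul_fst, Prod.smul_snd, smul_eq_mul, Complex.real_smul,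
        RingHom.id_apply, star_mul', Complex.star_def, Complex.conj_ofReal]; ring

theorem en_Lrot (z : ℂ) (b : ℂ × ℂ) : en (Lrot z b) = en b := by
  have h : 0 < √(1 + ‖z‖ ^ 2) := Real.sqrt_pos.2 (by positivity)
  show en ((((√(1 + ‖z‖ ^ 2))⁻¹ : ℝ) : ℂ) • (b + z • bp b)) = en b
  rw [en_smul, Complex.norm_real, Real.norm_eq_abs, abs_of_pos (inv_pos.2 h), en_add_bp]
  field_simp

theorem Lam_rot {d : ℕ} {x : CV d} (hx : ND x) (z : ℂ) (b : ℂ × ℂ) :
    Lam x (b + z • bp b) = Lam x (Lrot z b) := by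
  have h : 0 < √(1 + ‖z‖ ^ 2) := Real.sqrt_pos.2 (by positivity)
  show _ = Lam x ((((√(1 + ‖z‖ ^ 2))⁻¹ : ℝ) : ℂ) • (b + z • bp b))
  rw [Lam_smul hx (by exact_mod_cast (inv_pos.2 h).ne')]

theorem int_rot {d : ℕ} {x : CV d} (hx : ND x) (z : ℂ) :
    ∫ b, Lam x (b + z • bp b) ∂mu = ∫ b, Lam x b ∂mu := by
  simp only [Lam_rot hx]
  have h := mp_mu (Lrot z) (en_Lrot z)
  rw [← integral_map (φ := Lrot z) h.measurable.aemeasurable (f := Lam x)
    (by rw [h.map_eq]; exact (Lam_meas x).aestronglyMeasurable), h.map_eq]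

/-- the gap of the curve through `b` -/
noncomputable def gp {d : ℕ} (x : CV d) (R : ℝ) (b : ℂ × ℂ) : ℝ := gap (curv x b) R

theorem gp_eq {d : ℕ} {x : CV d} (hx : ND x) {R : ℝ} (hR : 0 < R) {b : ℂ × ℂ} (hb : b ≠ 0) :
    gp x R b = circleAverage (fun z => Lam x (b + z • bp b)) 0 R +
      d / 2 * Real.log (1 + R ^ 2) - Lam x b := by
  have hbp := en_pos hb
  have hC := cur_curv hx hb
  have h0 : curv x b 0 = hF x b := by simp [curv]
  unfold gp gap
  rw [h0]
  set κ : ℝ := d * (1 / 2 * Real.log (1 + R ^ 2) + Real.log (en b)) with hκ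
  have h1 : circleAverage (fun z => Real.log (en (curv x b z))) 0 R =
      circleAverage (fun z => Lam x (b + z • bp b) + κ) 0 R := by
    refine circleAverage_congr_sphere fun z hz => ?_
    rw [mem_sphere, dist_zero_right, abs_of_pos hR] at hz
    have h2 : 0 < √(1 + ‖z‖ ^ 2) := Real.sqrt_pos.2 (by positivity)
    simp only [Lam, curv]
    rw [en_add_bp, Real.log_mul h2.ne' hbp.ne', Real.log_sqrt (by positivity), hz, hκ]
    ring
  have h3 : circleAverage (fun z : ℂ => Lam x (b + z • bp b) + κ) 0 R =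
      circleAverage (fun z => Lam x (b + z • bp b)) 0 R + κ := by
    have hcont : Continuous fun z : ℂ => Lam x (b + z • bp b) := by
      unfold Lam
      refine Continuous.sub hC.log_cont (continuous_const.mul ?_)
      refine (en_continuous.comp (by fun_prop)).log fun z => ?_
      exact (en_pos (add_bp_ne hb z)).ne'
    rw [circleAverage_fun_add (circ_int_of_cont hcont R)
      (circ_int_of_cont continuous_const R), circleAverage_const]
  rw [h1, h3, hκ]
  unfold Lam
  ring

theorem avg_meas {d : ℕ} (x : CV d) (R : ℝ) :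
    StronglyMeasurable fun b : ℂ × ℂ => circleAverage (fun z => Lam x (b + z • bp b)) 0 R := by
  have h : StronglyMeasurable fun q : (ℂ × ℂ) × ℝ =>
      Lam x (q.1 + circleMap 0 R q.2 • bp q.1) := by
    refine ((Lam_meas x).comp (Continuous.measurable ?_)).stronglyMeasurable
    unfold bp
    have := continuous_circleMap (0 : ℂ) R
    fun_prop
  have h2 : (fun b : ℂ × ℂ => circleAverage (fun z => Lam x (b + z • bp b)) 0 R) =
      fun b => (2 * Real.pi)⁻¹ • ∫ t in Ioc 0 (2 * Real.pi),
        Lam x (b + circleMap 0 R t • bp b) := by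
    funext b
    rw [circleAverage_def, intervalIntegral.integral_of_le (by positivity)]
  rw [h2]
  have h3 := h.integral_prod_right' (ν := volume.restrict (Ioc 0 (2 * Real.pi)))
  exact h3.const_mul ((2 * Real.pi)⁻¹)

theorem integral_avg {d : ℕ} (hd : 1 ≤ d) {x : CV d} (hx : ND x) (R : ℝ) :
    ∫ b, circleAverage (fun z => Lam x (b + z • bp b)) 0 R ∂mu = ∫ b, Lam x b ∂mu := by
  obtain ⟨K, hK⟩ := Lam_bdd hd hx
  have h : StronglyMeasurable fun q : (ℂ × ℂ) × ℝ =>
      Lam x (q.1 + circleMap 0 R q.2 • bp q.1) := by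
    refine ((Lam_meas x).comp (Continuous.measurable ?_)).stronglyMeasurable
    unfold bp
    have := continuous_circleMap (0 : ℂ) R
    fun_prop
  have h2 : (fun b : ℂ × ℂ => circleAverage (fun z => Lam x (b + z • bp b)) 0 R) =
      fun b => (2 * Real.pi)⁻¹ • ∫ t in Ioc 0 (2 * Real.pi),
        Lam x (b + circleMap 0 R t • bp b) := by
    funext b
    rw [circleAverage_def, intervalIntegral.integral_of_le (by positivity)]
  rw [h2, integral_smul, integral_integral_swap]
  · simp only [int_rot hx]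
    rw [integral_const]
    simp only [MeasurableSet.univ, measureReal_restrict_apply, univ_inter, Real.volume_real_Ioc]
    rw [sub_zero, max_eq_left (by positivity), smul_smul, inv_mul_cancel₀ (by positivity), one_smul]
  · refine Integrable.of_bound h.aestronglyMeasurable K (Eventually.of_forall fun q => ?_)
    exact hK _

/-- the mean value of the gap -/
theorem integral_gp {d : ℕ} (hd : 1 ≤ d) {x : CV d} (hx : ND x) {R : ℝ} (hR : 0 < R) :
    ∫ b, gp x R b ∂mu = d / 2 * Real.log (1 + R ^ 2) * mu.real univ ∧ Integrable (gp x R) mu := by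
  obtain ⟨K, hK⟩ := Lam_bdd hd hx
  have hae : ∀ᵐ b ∂mu, gp x R b = circleAverage (fun z => Lam x (b + z • bp b)) 0 R +
      d / 2 * Real.log (1 + R ^ 2) - Lam x b := by
    have h0 : ∀ᵐ b ∂mu, b ≠ 0 := by
      unfold mu
      refine ae_restrict_of_ae ?_
      have : Measure.IsAddHaarMeasure (volume : Measure (ℂ × ℂ)) := by
        rw [Measure.volume_eq_prod]
        infer_instance
      exact Measure.ae_ne volume 0
    filter_upwards [h0] with b hb
    exact gp_eq hx hR hb
  have hi1 : Integrable (fun b : ℂ × ℂ => circleAverage (fun z => Lam x (b + z • bp b)) 0 R) mu := by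
    refine Integrable.of_bound (avg_meas x R).aestronglyMeasurable K
      (Eventually.of_forall fun b => ?_)
    rw [circleAverage_def, norm_smul, Real.norm_eq_abs, abs_of_pos (by positivity)]
    have h1 := intervalIntegral.norm_integral_le_of_norm_le_const (a := 0) (b := 2 * Real.pi)
      (f := fun t => Lam x (b + circleMap 0 R t • bp b)) (C := K) fun t _ => hK _
    rw [sub_zero, abs_of_pos (by positivity)] at h1
    calc (2 * Real.pi)⁻¹ * ‖∫ t in (0 : ℝ)..2 * Real.pi, Lam x (b + circleMap 0 R t • bp b)‖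
        ≤ (2 * Real.pi)⁻¹ * (K * (2 * Real.pi)) := by gcongr
      _ = K := by field_simp
  have hi2 : Integrable (Lam x) mu :=
    Integrable.of_bound (Lam_meas x).aestronglyMeasurable K (Eventually.of_forall hK)
  have hi3 : Integrable (fun b : ℂ × ℂ => circleAverage (fun z => Lam x (b + z • bp b)) 0 R +
      d / 2 * Real.log (1 + R ^ 2) - Lam x b) mu := (hi1.add (integrable_const _)).sub hi2
  refine ⟨?_, hi3.congr (hae.mono fun b h => h.symm)⟩
  have e1 : ∫ b, circleAverage (fun z => Lam x (b + z • bp b)) 0 R +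
      d / 2 * Real.log (1 + R ^ 2) - Lam x b ∂mu =
      ∫ b, circleAverage (fun z => Lam x (b + z • bp b)) 0 R + d / 2 * Real.log (1 + R ^ 2) ∂mu -
        ∫ b, Lam x b ∂mu := integral_sub (hi1.add (integrable_const _)) hi2
  have e2 : ∫ b, circleAverage (fun z => Lam x (b + z • bp b)) 0 R +
      d / 2 * Real.log (1 + R ^ 2) ∂mu =
      ∫ b, circleAverage (fun z => Lam x (b + z • bp b)) 0 R ∂mu +
        ∫ _, (d / 2 * Real.log (1 + R ^ 2) : ℝ) ∂mu := integral_add hi1 (integrable_const _)
  rw [integral_congr_ae hae, e1, e2, integral_avg hd hx, integral_const, smul_eq_mul]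
  ring

end Run7.h964.FM
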