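import Mathlib
import Pool.Agent.Run7.h964.FM.V

/-! The critical points, and the volume of the set of the bad pairs `(a, b)`. -/

set_option autoImplicit false

open Topology Filter Metric Set MeasureTheory
open Pool.Agent.H790R3.RB

namespace Run7.h964.FM

open Polynomial in
/-- the Wronskian -/
noncomputable def W0 {d : ℕ} (x : CV d) : ℂ[X] :=
  derivative (pol x 0) * pol x 1 - pol x 0 * derivative (pol x 1)

open Polynomial in
theorem W0_ne {d : ℕ} (hd : 1 ≤ d) {x : CV d} (hx : ND x) : W0 x ≠ 0 := by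
  intro h
  obtain ⟨hc, hmax⟩ := PQ.part1 hd x hx
  have h1 : derivative (pol x 0) * pol x 1 = pol x 0 * derivative (pol x 1) := sub_eq_zero.1 h
  have key : ∀ p : ℂ[X], p ∣ derivative p → p.natDegree = 0 := by
    intro p hp
    by_contra hn
    have h2 : derivative p = 0 := by
      by_contra h3
      have h4 := natDegree_le_of_dvd hp h3
      have h5 := natDegree_derivative_lt hn
      omega
    exact hn (derivative_eq_zero.1 h2)
  have h2 : pol x 0 ∣ derivative (pol x 0) := by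
    have : pol x 0 ∣ derivative (pol x 0) * pol x 1 := ⟨_, h1⟩
    exact hc.dvd_of_dvd_mul_right this
  have h3 : pol x 1 ∣ derivative (pol x 1) := by
    have : pol x 1 ∣ pol x 0 * derivative (pol x 1) := ⟨derivative (pol x 0), by rw [← h1]; ring⟩
    exact hc.symm.dvd_of_dvd_mul_left this
  rw [key _ h2, key _ h3] at hmax
  simp at hmax
  omega

open Polynomial in
theorem W0_deg {d : ℕ} (x : CV d) : (W0 x).natDegree ≤ 2 * d - 1 := by
  have h0 := PQ.pol_natDegree x 0
  have h1 := PQ.pol_natDegree x 1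
  have h2 := natDegree_derivative_le (pol x 0)
  have h3 := natDegree_derivative_le (pol x 1)
  by_cases hd : d = 0
  · subst hd
    have e0 : derivative (pol x 0) = 0 := by
      rw [eq_C_of_natDegree_le_zero h0, derivative_C]
    have e1 : derivative (pol x 1) = 0 := by
      rw [eq_C_of_natDegree_le_zero h1, derivative_C]
    unfold W0
    rw [e0, e1]
    simp
  · refine (natDegree_sub_le _ _).trans (max_le ?_ ?_)
    · refine natDegree_mul_le.trans ?_
      omega
    · refine natDegree_mul_le.trans ?_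
      omega

open Polynomial in
theorem wr_eq_W0 {d : ℕ} (x : CV d) (z : ℂ) : wr x (z, 1) = d * (W0 x).eval z := by
  have hA : ∀ i : Fin 2, ∑ j : Fin (d + 1), x (i, j) * (((j : ℕ) : ℂ) * z ^ ((j : ℕ) - 1) *
      1 ^ (d - (j : ℕ))) = (derivative (pol x i)).eval z := by
    intro i
    unfold pol
    rw [derivative_sum, eval_finsetSum]
    refine Finset.sum_congr rfl fun j _ => ?_
    rw [derivative_monomial, eval_monomial, one_pow]
    ring
  have hB : ∀ i : Fin 2, ∑ j : Fin (d + 1), x (i, j) * (((d - (j : ℕ) : ℕ) : ℂ) * z ^ (j : ℕ) *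
      1 ^ (d - (j : ℕ) - 1)) = d * (pol x i).eval z - z * (derivative (pol x i)).eval z := by
    intro i
    rw [← hA, PQ.pol_eval, Finset.mul_sum, Finset.mul_sum, ← Finset.sum_sub_distrib]
    refine Finset.sum_congr rfl fun j _ => ?_
    have hj : (j : ℕ) ≤ d := Nat.lt_succ_iff.1 j.2
    rw [Nat.cast_sub hj, one_pow, one_pow]
    rcases Nat.eq_zero_or_pos (j : ℕ) with h0 | h0
    · rw [h0]
      simp
      ring
    · obtain ⟨k, hk⟩ := Nat.exists_eq_succ_of_ne_zero h0.ne'
      rw [hk, Nat.succ_sub_one, pow_succ]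
      ring
  unfold wr W0
  simp only
  rw [hA, hA, hB, hB, eval_sub, eval_mul, eval_mul]
  ring

open Polynomial in
/-- representatives of the critical points -/
noncomputable def crit {d : ℕ} (x : CV d) : Finset (ℂ × ℂ) :=
  insert (1, 0) ((W0 x).roots.toFinset.image fun z => (z, (1 : ℂ)))

theorem crit_card {d : ℕ} (hd : 1 ≤ d) (x : CV d) : (crit x).card ≤ 2 * d := by
  have h1 := Finset.card_insert_le ((1, 0) : ℂ × ℂ)
    ((W0 x).roots.toFinset.image fun z => (z, (1 : ℂ)))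
  have h2 := Finset.card_image_le (s := (W0 x).roots.toFinset) (f := fun z => (z, (1 : ℂ)))
  have h3 := Multiset.toFinset_card_le (W0 x).roots
  have h4 := Polynomial.card_roots' (W0 x)
  have h5 := W0_deg x
  unfold crit
  omega

theorem crit_ne {d : ℕ} {x : CV d} {c : ℂ × ℂ} (hc : c ∈ crit x) : c ≠ 0 := by
  unfold crit at hc
  rw [Finset.mem_insert, Finset.mem_image] at hc
  rintro rfl
  rcases hc with h | ⟨z, -, h⟩
  · have := congrArg Prod.fst h
    simp at this
  · have := congrArg Prod.snd h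
    simp at this

theorem crit_spec {d : ℕ} (hd : 1 ≤ d) {x : CV d} (hx : ND x) {c : ℂ × ℂ} (hc : c ≠ 0)
    (hw : wr x c = 0) (hd2 : 2 ≤ d) : ∃ e ∈ crit x, ∃ k : ℂ, k ≠ 0 ∧ c = k • e := by
  by_cases h2 : c.2 = 0
  · refine ⟨(1, 0), Finset.mem_insert_self _ _, c.1, fun h => hc (Prod.ext h h2), ?_⟩
    exact Prod.ext (by simp) (by simp [h2])
  · have e1 : c = c.2 • ((c.1 / c.2, 1) : ℂ × ℂ) := by
      refine Prod.ext ?_ ?_
      · simp only [Prod.smul_fst, smul_eq_mul]
        field_simp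
      · simp
    refine ⟨(c.1 / c.2, 1), ?_, c.2, h2, e1⟩
    rw [e1, (WR d x hd2).1, wr_eq_W0] at hw
    have h3 : (W0 x).eval (c.1 / c.2) = 0 := by
      rcases mul_eq_zero.1 hw with h | h
      · exact absurd h (pow_ne_zero _ h2)
      · refine (mul_eq_zero.1 h).resolve_left ?_
        exact_mod_cast (by omega : d ≠ 0)
    refine Finset.mem_insert_of_mem (Finset.mem_image.2 ⟨c.1 / c.2, ?_, rfl⟩)
    rw [Multiset.mem_toFinset, Polynomial.mem_roots (W0_ne hd hx)]
    exact h3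

/-- first kind of bad pairs `(a, b)` -/
def Z1 {d : ℕ} (x : CV d) (s : ℝ) : Set ((ℂ × ℂ) × (ℂ × ℂ)) :=
  {q | Real.log (6 / 5) < gp x (12 * s) q.2}

/-- second kind -/
def Z2 {d : ℕ} (x : CV d) (s : ℝ) : Set ((ℂ × ℂ) × (ℂ × ℂ)) :=
  {q | ‖cx q.1 (hF x q.2)‖ <
    (4 * s + 5 / 2 * √(gp x (6 * s) q.2)) * (en q.1 * en (hF x q.2))}

/-- third kind -/
def Z3 {d : ℕ} (x : CV d) (s : ℝ) (c : ℂ × ℂ) : Set ((ℂ × ℂ) × (ℂ × ℂ)) :=
  {q | ‖cx q.1 (hF x c)‖ < 4 * s * (en q.1 * en (hF x c))}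

/-- bad pairs -/
def Bd {d : ℕ} (x : CV d) (s : ℝ) : Set ((ℂ × ℂ) × (ℂ × ℂ)) :=
  Z1 x s ∪ Z2 x s ∪ ⋃ c ∈ crit x, Z3 x s c

theorem not_bad_hyp {d : ℕ} (hd : 2 ≤ d) {x : CV d} (hx : ND x) {s : ℝ} (hs : 0 < s) (hs1 : s ≤ 1)
    {a b : ℂ × ℂ} (ha : a ≠ 0) (hb : b ≠ 0) (hq : (a, b) ∉ Bd x s)
    {m : (ℂ × ℂ) × (ℂ × ℂ)} (hm0 : dt m ≠ 0) (hm : Near (s ^ 2 * (en a * en b)) m (rk a b)) :
    HypTop (sp (cm m x)) := by
  unfold Bd at hq
  simp only [mem_union, mem_iUnion, not_or, not_exists] at hq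
  obtain ⟨⟨h1, h2⟩, h3⟩ := hq
  refine good_hyp hd hx hs hs1 ha hb (not_lt.1 h1) (not_lt.1 h2) ?_ hm0 hm
  intro c hc hw
  obtain ⟨e, he, k, hk, rfl⟩ := crit_spec (by omega) hx hc hw hd
  have h4 : 4 * s * (en a * en (hF x e)) ≤ ‖cx a (hF x e)‖ := not_lt.1 (h3 e he)
  rw [hF_smul, en_smul, cx_smul, norm_mul]
  calc 4 * s * (en a * (‖k ^ d‖ * en (hF x e))) = ‖k ^ d‖ * (4 * s * (en a * en (hF x e))) := by
        ring
    _ ≤ _ := by gcongr

theorem gp_meas {d : ℕ} (x : CV d) (R : ℝ) : Measurable (gp x R) := by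
  have h : StronglyMeasurable fun q : (ℂ × ℂ) × ℝ =>
      Real.log (en (hF x (q.1 + circleMap 0 R q.2 • bp q.1))) := by
    refine (Real.measurable_log.comp (Continuous.measurable ?_)).stronglyMeasurable
    refine en_continuous.comp ((hF_cont x).comp ?_)
    unfold bp
    have := continuous_circleMap (0 : ℂ) R
    fun_prop
  have h2 : (fun b : ℂ × ℂ => Real.circleAverage (fun z => Real.log (en (curv x b z))) 0 R) =
      fun b => (2 * Real.pi)⁻¹ • ∫ t in Ioc 0 (2 * Real.pi),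
        Real.log (en (hF x (b + circleMap 0 R t • bp b))) := by
    funext b
    rw [Real.circleAverage_def, intervalIntegral.integral_of_le (by positivity)]
    rfl
  have h3 : Measurable fun b : ℂ × ℂ =>
      Real.circleAverage (fun z => Real.log (en (curv x b z))) 0 R := by
    rw [h2]
    exact ((h.integral_prod_right' (ν := volume.restrict (Ioc 0 (2 * Real.pi)))).const_mul
      ((2 * Real.pi)⁻¹)).measurable
  have h4 : gp x R = fun b => Real.circleAverage (fun z => Real.log (en (curv x b z))) 0 R -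
      Real.log (en (hF x b)) := by
    funext b
    unfold gp gap
    have : curv x b 0 = hF x b := by simp [curv]
    rw [this]
  rw [h4]
  exact h3.sub (Real.measurable_log.comp (en_continuous.comp (hF_cont x)).measurable)

theorem cx_cont : Continuous fun q : (ℂ × ℂ) × (ℂ × ℂ) => cx q.1 q.2 := by
  unfold cx
  fun_prop

theorem Z1_meas {d : ℕ} (x : CV d) (s : ℝ) : MeasurableSet (Z1 x s) :=
  measurableSet_lt measurable_const ((gp_meas x _).comp measurable_snd)

theorem Z2_meas {d : ℕ} (x : CV d) (s : ℝ) : MeasurableSet (Z2 x s) := by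
  refine measurableSet_lt ?_ ?_
  · refine (Continuous.measurable ?_)
    exact (cx_cont.comp (continuous_fst.prodMk ((hF_cont x).comp continuous_snd))).norm
  · refine Measurable.mul ?_ ?_
    · exact measurable_const.add
        ((((gp_meas x (6 * s)).comp measurable_snd).sqrt).const_mul _)
    · exact ((en_continuous.comp continuous_fst).mul
        (en_continuous.comp ((hF_cont x).comp continuous_snd))).measurable

theorem Z3_meas {d : ℕ} (x : CV d) (s : ℝ) (c : ℂ × ℂ) : MeasurableSet (Z3 x s c) := by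
  refine measurableSet_lt ?_ ?_
  · exact (cx_cont.comp (continuous_fst.prodMk continuous_const)).norm.measurable
  · exact (((en_continuous.comp continuous_fst).mul continuous_const).const_mul _).measurable

theorem Bd_meas {d : ℕ} (x : CV d) (s : ℝ) : MeasurableSet (Bd x s) :=
  ((Z1_meas x s).union (Z2_meas x s)).union
    (Finset.measurableSet_biUnion _ fun c _ => Z3_meas x s c)

theorem integral_gp_le {d : ℕ} (hd : 1 ≤ d) {x : CV d} (hx : ND x) {R : ℝ} (hR : 0 < R) :
    ∫ b, gp x R b ∂mu ≤ d / 2 * R ^ 2 * mu.real univ := by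
  rw [(integral_gp hd hx hR).1]
  have h1 : Real.log (1 + R ^ 2) ≤ R ^ 2 := by
    have := Real.log_le_sub_one_of_pos (by positivity : (0 : ℝ) < 1 + R ^ 2)
    linarith
  gcongr

theorem ae_ne : ∀ᵐ b ∂mu, b ≠ 0 := by
  unfold mu
  refine ae_restrict_of_ae ?_
  have : Measure.IsAddHaarMeasure (volume : Measure (ℂ × ℂ)) := by
    rw [Measure.volume_eq_prod]
    infer_instance
  exact Measure.ae_ne volume 0

theorem gp_nonneg {d : ℕ} {x : CV d} (hx : ND x) {R : ℝ} (hR : 0 < R) {b : ℂ × ℂ} (hb : b ≠ 0) :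
    0 ≤ gp x R b := (cur_curv hx hb).gap_nonneg hR

theorem Z1_le {d : ℕ} (hd : 1 ≤ d) {x : CV d} (hx : ND x) {s : ℝ} (hs : 0 < s) :
    (mu.prod mu) (Z1 x s) ≤ ENNReal.ofReal (432 * d * s ^ 2 * mu.real univ ^ 2) := by
  have h1 : Z1 x s = univ ×ˢ {b | Real.log (6 / 5) < gp x (12 * s) b} := by
    ext q
    simp [Z1]
  have hR : 0 < 12 * s := by positivity
  have hl : (1 : ℝ) / 6 ≤ Real.log (6 / 5) := by
    have := Real.one_sub_inv_le_log_of_pos (by norm_num : (0 : ℝ) < 6 / 5)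
    norm_num at this ⊢
    linarith
  have h2 := mul_meas_ge_le_integral_of_nonneg (μ := mu) (f := gp x (12 * s))
    (ae_ne.mono fun b hb => gp_nonneg hx hR hb) (integral_gp hd hx hR).2 (1 / 6)
  have h3 := integral_gp_le hd hx hR
  have h4 : mu.real {b | Real.log (6 / 5) < gp x (12 * s) b} ≤
      mu.real {b | (1 : ℝ) / 6 ≤ gp x (12 * s) b} := by
    refine measureReal_mono fun b hb => ?_
    exact hl.trans (le_of_lt hb)
  have h5 : mu.real {b | Real.log (6 / 5) < gp x (12 * s) b} ≤ 432 * d * s ^ 2 * mu.real univ := by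
    have h6 : (d : ℝ) / 2 * (12 * s) ^ 2 * mu.real univ = 72 * d * s ^ 2 * mu.real univ := by ring
    rw [h6] at h3
    linarith
  rw [h1, Measure.prod_prod]
  have h6 : mu {b | Real.log (6 / 5) < gp x (12 * s) b} ≤
      ENNReal.ofReal (432 * d * s ^ 2 * mu.real univ) := by
    rw [← ofReal_measureReal]
    exact ENNReal.ofReal_le_ofReal h5
  have h7 : mu univ = ENNReal.ofReal (mu.real univ) := (ofReal_measureReal).symm
  rw [h7]
  refine (mul_le_mul_right h6 _).trans ?_
  rw [← ENNReal.ofReal_mul measureReal_nonneg]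
  exact ENNReal.ofReal_le_ofReal (le_of_eq (by ring))

theorem Z2_le {d : ℕ} (hd : 1 ≤ d) {x : CV d} (hx : ND x) {s : ℝ} (hs : 0 < s) :
    (mu.prod mu) (Z2 x s) ≤
      ENNReal.ofReal (Real.pi ^ 2 * (257 * d * s ^ 2) * mu.real univ) := by
  have hR : 0 < 6 * s := by positivity
  obtain ⟨hi1, hi2⟩ := integral_gp hd hx hR
  have hi3 := integral_gp_le hd hx hR
  rw [Measure.prod_apply_symm (Z2_meas x s)]
  have h1 : ∀ᵐ b ∂mu, mu ((fun a => (a, b)) ⁻¹' Z2 x s) ≤
      ENNReal.ofReal (Real.pi ^ 2 * (32 * s ^ 2 + 25 / 2 * gp x (6 * s) b)) := by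
    filter_upwards [ae_ne] with b hb
    have hg := gp_nonneg hx hR hb
    have h2 := mu_strip (e := hF x b) (fun h => hb (hx _ h))
      (u := 4 * s + 5 / 2 * √(gp x (6 * s) b)) (by positivity)
    refine h2.trans (ENNReal.ofReal_le_ofReal ?_)
    refine mul_le_mul_of_nonneg_left ?_ (by positivity)
    nlinarith [sq_nonneg (4 * s - 5 / 2 * √(gp x (6 * s) b)), Real.sq_sqrt hg]
  refine (lintegral_mono_ae h1).trans ?_
  have h3 : Integrable (fun b => Real.pi ^ 2 * (32 * s ^ 2 + 25 / 2 * gp x (6 * s) b)) mu :=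
    ((integrable_const _).add (hi2.const_mul _)).const_mul _
  have h4 : 0 ≤ᵐ[mu] fun b => Real.pi ^ 2 * (32 * s ^ 2 + 25 / 2 * gp x (6 * s) b) := by
    filter_upwards [ae_ne] with b hb
    have hg := gp_nonneg hx hR hb
    show (0 : ℝ) ≤ _
    positivity
  rw [← ofReal_integral_eq_lintegral_ofReal h3 h4]
  refine ENNReal.ofReal_le_ofReal ?_
  have e1 : ∫ b, Real.pi ^ 2 * (32 * s ^ 2 + 25 / 2 * gp x (6 * s) b) ∂mu =
      Real.pi ^ 2 * (32 * s ^ 2 * mu.real univ + 25 / 2 * ∫ b, gp x (6 * s) b ∂mu) := by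
    rw [integral_const_mul, integral_add (integrable_const _) (hi2.const_mul _), integral_const,
      integral_const_mul, smul_eq_mul]
    ring
  have e2 : Real.pi ^ 2 * (257 * d * s ^ 2) * mu.real univ =
      Real.pi ^ 2 * (257 * d * s ^ 2 * mu.real univ) := by ring
  rw [e1, e2]
  refine mul_le_mul_of_nonneg_left ?_ (by positivity)
  have hV : 0 ≤ mu.real univ := measureReal_nonneg
  have hd' : (1 : ℝ) ≤ d := by exact_mod_cast hd
  have h5 : 32 * s ^ 2 * mu.real univ ≤ 32 * d * s ^ 2 * mu.real univ := by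
    have : (32 : ℝ) * s ^ 2 ≤ 32 * d * s ^ 2 := by nlinarith [sq_nonneg s]
    exact mul_le_mul_of_nonneg_right this hV
  nlinarith

theorem Z3_le {d : ℕ} {x : CV d} (hx : ND x) {s : ℝ} (hs : 0 < s) {c : ℂ × ℂ}
    (hc : c ≠ 0) : (mu.prod mu) (Z3 x s c) ≤
      ENNReal.ofReal (Real.pi ^ 2 * (16 * s ^ 2) * mu.real univ) := by
  have h1 : Z3 x s c = {a | ‖cx a (hF x c)‖ < 4 * s * (en a * en (hF x c))} ×ˢ univ := by
    ext q
    simp [Z3]
  have h2 := mu_strip (e := hF x c) (fun h => hc (hx _ h)) (u := 4 * s) (by positivity)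
  rw [h1, Measure.prod_prod]
  have h7 : mu univ = ENNReal.ofReal (mu.real univ) := (ofReal_measureReal).symm
  rw [h7]
  refine (mul_le_mul_left h2 _).trans ?_
  rw [← ENNReal.ofReal_mul (by positivity)]
  exact ENNReal.ofReal_le_ofReal (le_of_eq (by ring))

theorem Bd_le {d : ℕ} (hd : 1 ≤ d) {x : CV d} (hx : ND x) {s : ℝ} (hs : 0 < s) :
    (mu.prod mu) (Bd x s) ≤ ENNReal.ofReal (432 * d * s ^ 2 * mu.real univ ^ 2 +
      Real.pi ^ 2 * (289 * d * s ^ 2) * mu.real univ) := by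
  have hV : 0 ≤ mu.real univ := measureReal_nonneg
  unfold Bd
  refine (measure_union_le _ _).trans ?_
  have h1 := (measure_union_le (μ := mu.prod mu) (Z1 x s) (Z2 x s)).trans
    (add_le_add (Z1_le hd hx hs) (Z2_le hd hx hs))
  have h2 : (mu.prod mu) (⋃ c ∈ crit x, Z3 x s c) ≤
      ENNReal.ofReal (2 * d * (Real.pi ^ 2 * (16 * s ^ 2) * mu.real univ)) := by
    refine (measure_biUnion_finset_le _ _).trans ?_
    refine (Finset.sum_le_sum fun c hc => Z3_le hx hs (crit_ne hc)).trans ?_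
    rw [Finset.sum_const, nsmul_eq_mul, ← ENNReal.ofReal_natCast,
      ← ENNReal.ofReal_mul (Nat.cast_nonneg _)]
    refine ENNReal.ofReal_le_ofReal ?_
    have h3 : ((crit x).card : ℝ) ≤ 2 * d := by exact_mod_cast crit_card hd x
    gcongr
  refine (add_le_add h1 h2).trans ?_
  have hA : 0 ≤ 432 * (d : ℝ) * s ^ 2 * mu.real univ ^ 2 := by positivity
  have hB : 0 ≤ Real.pi ^ 2 * (257 * (d : ℝ) * s ^ 2) * mu.real univ := by positivity
  have hC : 0 ≤ 2 * (d : ℝ) * (Real.pi ^ 2 * (16 * s ^ 2) * mu.real univ) := by positivity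
  rw [← ENNReal.ofReal_add hA hB, ← ENNReal.ofReal_add (add_nonneg hA hB) hC]
  exact ENNReal.ofReal_le_ofReal (le_of_eq (by ring))

end Run7.h964.FM
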