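import Mathlib
import Pool.Agent.Run7.h964.FM.W

/-! Matrices of bounded norm; invariance of the bad set. -/

set_option autoImplicit false

open Topology Filter Metric Set MeasureTheory
open Pool.Agent.H790R3.RB

namespace Run7.h964.FM

theorem pi_enn : (NNReal.pi : ENNReal) = ENNReal.ofReal Real.pi := by
  rw [ENNReal.ofReal, ← NNReal.coe_real_pi, Real.toNNReal_coe]

theorem mu_univ : mu univ = volume Bl := by
  unfold mu
  rw [Measure.restrict_apply MeasurableSet.univ, univ_inter]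

theorem V_upper : mu.real univ ≤ Real.pi ^ 2 := by
  have h : Bl ⊆ closedBall (0 : ℂ) 1 ×ˢ closedBall (0 : ℂ) 1 := by
    intro p hp
    have hp' : en p ≤ 1 := hp
    have h1 := en_sq p
    have h0 := en_nonneg p
    rw [mem_prod, mem_closedBall, mem_closedBall, dist_zero_right, dist_zero_right]
    constructor
    · nlinarith [norm_nonneg p.1, sq_nonneg ‖p.2‖]
    · nlinarith [norm_nonneg p.2, sq_nonneg ‖p.1‖]
  have h2 : mu univ ≤ ENNReal.ofReal (Real.pi ^ 2) := by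
    rw [mu_univ]
    refine (measure_mono h).trans ?_
    rw [Measure.volume_eq_prod, Measure.prod_prod, Complex.volume_closedBall, ENNReal.ofReal_one,
      one_pow, one_mul, pi_enn, ← ENNReal.ofReal_mul Real.pi_pos.le]
    exact ENNReal.ofReal_le_ofReal (le_of_eq (by ring))
  exact ENNReal.toReal_le_of_le_ofReal (by positivity) h2

theorem V_lower : 24 / 100 * Real.pi ^ 2 ≤ mu.real univ := by
  have h : closedBall (0 : ℂ) (7 / 10) ×ˢ closedBall (0 : ℂ) (7 / 10) ⊆ Bl := by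
    rintro p ⟨h1, h2⟩
    rw [mem_closedBall, dist_zero_right] at h1 h2
    show en p ≤ 1
    refine le_of_sq_le_sq ?_ zero_le_one
    rw [en_sq]
    nlinarith [norm_nonneg p.1, norm_nonneg p.2]
  have h2 : ENNReal.ofReal (24 / 100 * Real.pi ^ 2) ≤ mu univ := by
    rw [mu_univ]
    refine le_trans ?_ (measure_mono h)
    rw [Measure.volume_eq_prod, Measure.prod_prod, Complex.volume_closedBall, pi_enn,
      ← ENNReal.ofReal_pow (by norm_num), ← ENNReal.ofReal_mul (by norm_num),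
      ← ENNReal.ofReal_mul (by positivity)]
    refine ENNReal.ofReal_le_ofReal ?_
    nlinarith [sq_nonneg Real.pi]
  rw [Measure.real, ← ENNReal.ofReal_le_iff_le_toReal (measure_ne_top mu univ)]
  exact h2

theorem exists_good {d : ℕ} (hd : 1 ≤ d) {x : CV d} (hx : ND x) {s : ℝ} (hs : 0 < s)
    (hsd : 1637 * d * s ^ 2 < 1) : ∃ a b : ℂ × ℂ, a ≠ 0 ∧ b ≠ 0 ∧ (a, b) ∉ Bd x s := by
  by_contra hcon
  push Not at hcon
  have hV := V_lower
  have hpi : 0 < Real.pi ^ 2 := by positivity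
  set V : ℝ := mu.real univ with hVdef
  have hVp : 0 < V := by linarith
  have h0 : mu {0} = 0 := by
    have := ae_ne
    rw [ae_iff] at this
    simpa using this
  have h1 : (mu.prod mu) univ ≤ (mu.prod mu) (Bd x s) := by
    have h2 : (univ : Set ((ℂ × ℂ) × (ℂ × ℂ))) ⊆
        Bd x s ∪ ({0} ×ˢ univ ∪ univ ×ˢ {0}) := by
      rintro ⟨a, b⟩ -
      by_cases ha : a = 0
      · right; left
        exact ⟨ha, mem_univ _⟩
      by_cases hb : b = 0
      · right; right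
        exact ⟨mem_univ _, hb⟩
      left
      exact hcon a b ha hb
    refine (measure_mono h2).trans ((measure_union_le _ _).trans ?_)
    have h3 : (mu.prod mu) (({0} : Set (ℂ × ℂ)) ×ˢ (univ : Set (ℂ × ℂ)) ∪ univ ×ˢ {0}) = 0 := by
      rw [measure_union_null_iff, Measure.prod_prod, Measure.prod_prod, h0]
      simp
    rw [h3, add_zero]
  have h2 := h1.trans (Bd_le hd hx hs)
  have e0 : (mu.prod mu) univ = ENNReal.ofReal (V * V) := by
    have e1 : mu (univ : Set (ℂ × ℂ)) = ENNReal.ofReal V := by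
      rw [hVdef, ofReal_measureReal]
    rw [show (univ : Set ((ℂ × ℂ) × (ℂ × ℂ))) = (univ : Set (ℂ × ℂ)) ×ˢ (univ : Set (ℂ × ℂ)) from
      univ_prod_univ.symm, Measure.prod_prod, e1, ENNReal.ofReal_mul hVp.le]
  rw [e0, ENNReal.ofReal_le_ofReal_iff (by positivity), ← hVdef] at h2
  have hds : 0 ≤ (d : ℝ) * s ^ 2 := by positivity
  have h3 : 289 * Real.pi ^ 2 * V ≤ 1205 * V ^ 2 := by
    have : 289 * Real.pi ^ 2 ≤ 1205 * V := by linarith
    nlinarith
  have h4 : 432 * d * s ^ 2 * V ^ 2 + Real.pi ^ 2 * (289 * d * s ^ 2) * V ≤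
      1637 * (d * s ^ 2) * V ^ 2 := by
    have : Real.pi ^ 2 * (289 * d * s ^ 2) * V = (d * s ^ 2) * (289 * Real.pi ^ 2 * V) := by ring
    rw [this]
    have := mul_le_mul_of_nonneg_left h3 hds
    nlinarith
  have h5 : 1637 * (d * s ^ 2) * V ^ 2 < 1 * V ^ 2 := by
    refine mul_lt_mul_of_pos_right ?_ (by positivity)
    linarith
  nlinarith

theorem pr_smul {c : ℂ} (hc : c ≠ 0) (w : ℂ × ℂ) : pr (c • w) = pr w := by
  unfold pr
  simp only [Prod.smul_fst, Prod.smul_snd, smul_eq_mul]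
  by_cases h : w.2 = 0
  · rw [if_pos h, if_pos (by rw [h, mul_zero])]
  · rw [if_neg h, if_neg (mul_ne_zero hc h), mul_div_mul_left _ _ hc]

theorem app_smul (c : ℂ) (m : (ℂ × ℂ) × (ℂ × ℂ)) (w : ℂ × ℂ) : app (c • m) w = c • app m w := by
  refine Prod.ext ?_ ?_
  · simp only [app, Prod.smul_fst, Prod.smul_snd, smul_eq_mul]; ring
  · simp only [app, Prod.smul_fst, Prod.smul_snd, smul_eq_mul]; ring

theorem sp_cm_smul {d : ℕ} {c : ℂ} (hc : c ≠ 0) (m : (ℂ × ℂ) × (ℂ × ℂ)) (x : CV d) :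
    sp (cm (c • m) x) = sp (cm m x) := by
  funext z
  unfold sp
  rw [hF_cm, hF_cm, app_smul, pr_smul hc]

theorem dt_smul (c : ℂ) (m : (ℂ × ℂ) × (ℂ × ℂ)) : dt (c • m) = c ^ 2 * dt m := by
  simp only [dt, Prod.smul_fst, Prod.smul_snd, smul_eq_mul]; ring

/-- a good perturbation of the matrix of rank one -/
noncomputable def pm (s : ℝ) (a b : ℂ × ℂ) : (ℂ × ℂ) × (ℂ × ℂ) :=
  rk a b + ((s : ℂ) ^ 2) • (((bp b).1 * star a.1, (bp b).1 * star a.2),
    ((bp b).2 * star a.1, (bp b).2 * star a.2))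

theorem norm_fst_le (a : ℂ × ℂ) : ‖a.1‖ ≤ en a := by
  refine le_of_sq_le_sq ?_ (en_nonneg a)
  rw [en_sq]; nlinarith [sq_nonneg ‖a.2‖]

theorem norm_snd_le (a : ℂ × ℂ) : ‖a.2‖ ≤ en a := by
  refine le_of_sq_le_sq ?_ (en_nonneg a)
  rw [en_sq]; nlinarith [sq_nonneg ‖a.1‖]

theorem pm_near {s : ℝ} (a b : ℂ × ℂ) : Near (s ^ 2 * (en a * en b)) (pm s a b) (rk a b) := by
  have hs2 : 0 ≤ s ^ 2 := by positivity
  have h : ∀ u v : ℂ, ‖u‖ ≤ en b → ‖v‖ ≤ en a → ‖(s : ℂ) ^ 2 * (u * star v)‖ ≤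
      s ^ 2 * (en a * en b) := by
    intro u v hu hv
    rw [norm_mul, norm_mul, norm_star, norm_pow, Complex.norm_real, Real.norm_eq_abs, sq_abs]
    refine mul_le_mul_of_nonneg_left ?_ hs2
    rw [mul_comm]
    exact mul_le_mul hv hu (norm_nonneg _) (en_nonneg _)
  have h1 : ‖(bp b).1‖ ≤ en b := (norm_fst_le _).trans (le_of_eq (en_bp b))
  have h2 : ‖(bp b).2‖ ≤ en b := (norm_snd_le _).trans (le_of_eq (en_bp b))
  have e : ∀ u v : ℂ, u + v - u = v := fun u v => by ring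
  refine ⟨?_, ?_, ?_, ?_⟩
  · simp only [pm, Prod.fst_add, Prod.smul_fst, smul_eq_mul, e]
    exact h _ _ h1 (norm_fst_le a)
  · simp only [pm, Prod.fst_add, Prod.snd_add, Prod.smul_fst, Prod.smul_snd, smul_eq_mul, e]
    exact h _ _ h1 (norm_snd_le a)
  · simp only [pm, Prod.fst_add, Prod.snd_add, Prod.smul_fst, Prod.smul_snd, smul_eq_mul, e]
    exact h _ _ h2 (norm_fst_le a)
  · simp only [pm, Prod.snd_add, Prod.smul_snd, smul_eq_mul, e]
    exact h _ _ h2 (norm_snd_le a)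

theorem dt_pm (s : ℝ) (a b : ℂ × ℂ) : dt (pm s a b) = -((s : ℂ) ^ 2 * (ip a a * ip b b)) := by
  simp only [dt, pm, rk, bp, ip, Prod.fst_add, Prod.snd_add, Prod.smul_fst, Prod.smul_snd,
    smul_eq_mul]
  ring

theorem exists_matrix {d : ℕ} (hd : 2 ≤ d) {x : CV d} (hx : ND x) :
    ∃ m : (ℂ × ℂ) × (ℂ × ℂ), dt m = 1 ∧ ‖m‖ ≤ 82 * √d ∧ HypTop (sp (cm m x)) := by
  have hd0 : (0 : ℝ) < d := by exact_mod_cast (by omega : 0 < d)
  have hd1 : (1 : ℝ) ≤ d := by exact_mod_cast (by omega : 1 ≤ d)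
  have hsq : 1 ≤ √(d : ℝ) := Real.one_le_sqrt.2 hd1
  set s : ℝ := 1 / (41 * √d) with hs
  have hsp : 0 < s := by positivity
  have hs1 : s ≤ 1 := by
    rw [hs, div_le_one (by positivity)]
    linarith
  have hs2 : s ^ 2 = 1 / (1681 * d) := by
    rw [hs, div_pow, mul_pow, Real.sq_sqrt hd0.le]
    norm_num
  have hsd : 1637 * d * s ^ 2 < 1 := by
    rw [hs2]
    field_simp
    norm_num
  obtain ⟨a, b, ha, hb, hab⟩ := exists_good (by omega) hx hsp hsd
  have hap := en_pos ha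
  have hbp := en_pos hb
  have hdt : dt (pm s a b) = -(((s * (en a * en b)) ^ 2 : ℝ) : ℂ) := by
    rw [dt_pm, ip_self, ip_self]
    push_cast
    ring
  set κ : ℝ := s * (en a * en b) with hκ
  have hκp : 0 < κ := by positivity
  have hκc : (κ : ℂ) ≠ 0 := by exact_mod_cast hκp.ne'
  have hdt0 : dt (pm s a b) ≠ 0 := by
    rw [hdt, neg_ne_zero]
    exact_mod_cast (pow_pos hκp 2).ne'
  have hyp := not_bad_hyp hd hx hsp hs1 ha hb hab hdt0 (pm_near a b)
  set c : ℂ := Complex.I / κ with hc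
  have hc0 : c ≠ 0 := div_ne_zero Complex.I_ne_zero hκc
  refine ⟨c • pm s a b, ?_, ?_, ?_⟩
  · rw [dt_smul, hdt, hc, div_pow, Complex.I_sq]
    push_cast
    field_simp
  · rw [norm_smul, hc, norm_div, Complex.norm_I, Complex.norm_real, Real.norm_eq_abs,
      abs_of_pos hκp]
    have hn : ‖pm s a b‖ ≤ 2 * (en a * en b) := by
      obtain ⟨n1, n2, n3, n4⟩ := pm_near (s := s) a b
      have hX : 0 < en a * en b := by positivity
      have hs22 : s ^ 2 * (en a * en b) ≤ en a * en b := by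
        have : s ^ 2 ≤ 1 := by nlinarith
        nlinarith
      have key : ∀ u v : ℂ, ‖u - v‖ ≤ s ^ 2 * (en a * en b) → ‖v‖ ≤ en a * en b →
          ‖u‖ ≤ 2 * (en a * en b) := by
        intro u v h1 h2
        have := norm_add_le (u - v) v
        rw [sub_add_cancel] at this
        linarith
      have kk : ∀ u v : ℂ, ‖u‖ ≤ en b → ‖v‖ ≤ en a → ‖u * v‖ ≤ en a * en b := by
        intro u v hu hv
        rw [norm_mul, mul_comm]
        exact mul_le_mul hv hu (norm_nonneg _) (en_nonneg _)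
      have hb1 := norm_fst_le b
      have hb2 := norm_snd_le b
      have ha1 := norm_fst_le a
      have ha2 : ‖-a.2‖ ≤ en a := by rw [norm_neg]; exact norm_snd_le a
      rw [Prod.norm_def, Prod.norm_def, Prod.norm_def]
      refine max_le (max_le ?_ ?_) (max_le ?_ ?_)
      · exact key _ _ n1 (kk _ _ hb1 ha2)
      · exact key _ _ n2 (kk _ _ hb1 ha1)
      · exact key _ _ n3 (kk _ _ hb2 ha2)
      · exact key _ _ n4 (kk _ _ hb2 ha1)
    calc 1 / κ * ‖pm s a b‖ ≤ 1 / κ * (2 * (en a * en b)) := by gcongr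
      _ = 2 / s := by rw [hκ]; field_simp
      _ = 82 * √d := by rw [hs]; field_simp; norm_num
  · rw [sp_cm_smul hc0]
    exact hyp

end Run7.h964.FM
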